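import Pool.Agent.P.MP_a11f68_mp.R.Iface

/-! Lines, persistence, and the end at infinity. -/

namespace Pool.Agent.P.MP_a11f68_mp.R

open Complex ComplexConjugate Metric Filter Topology Set Pool.Agent.P.MP_a11f68_mp.Q
open scoped Real

variable {F B : Set (ℂ × ℂ)} {c : ℂ} {N : ℕ} {C : ℝ}

lemma hyp_an (h : Hyp F) : An F := fun p => by
  obtain ⟨U, h1, h2, f, h3, h4⟩ := h p
  exact ⟨U, h1, h2, 1, fun _ => f, fun _ => h3, fun q hq => by rw [h4 q hq, forall_const]⟩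

lemma gi_small {w : ℂ} (h : w ∈ range gi) (hw : ‖w‖ < 1 / 2) : w = 0 := by
  obtain ⟨n, rfl⟩ := h
  exact gi_norm (by linarith)

lemma gi_punct (x : ℂ) : ∀ᶠ z in 𝓝[≠] x, z ∉ range gi := by
  by_cases h : x ∈ range gi
  · obtain ⟨n, rfl⟩ := h
    filter_upwards [mem_nhdsWithin_of_mem_nhds (ball_mem_nhds (gi n) one_pos),
      self_mem_nhdsWithin] with z h1 h2
    rintro ⟨m, rfl⟩
    exact h2 (zero_far (mem_ball_iff_norm.1 h1))
  · exact mem_nhdsWithin_of_mem_nhds (isClosed_gi.isOpen_compl.mem_nhds h)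

/-- Horizontal lines in `F` lie over the lattice. -/
lemma line' (D : Data F c N C) {z : ℂ} (hz0 : z ∉ range gi) : ∃ w, (w, z) ∉ F := by
  by_cases hz : z ∈ Perf
  · obtain ⟨s, hs, -, hR⟩ := exists_far countable_empty N (N + ‖z‖)
    refine ⟨s, D.gap s hs.1 z hz ?_⟩
    have := norm_sub_norm_le s (conj z)
    rw [norm_conj] at this
    linarith
  obtain ⟨n, hn⟩ := not_Perf hz
  have h3 : 0 < ‖z + gi n‖ := norm_pos_iff.2 fun e => add_gi_notMem hz0 n ⟨0, by rw [e, gi_zero]⟩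
  obtain ⟨s, hs, -, hR⟩ := exists_far countable_empty N (max 1 ((‖c‖ + |C|) / ‖z + gi n‖))
  refine ⟨s - conj (gi n), fun h => ?_⟩
  have h0 := D.inv _ h ![n 0, -n 1]
  rw [gi_conj, conj_conj, sub_add_cancel] at h0
  have h1 := D.e1.asym s hs _ (by linarith) h0
  have h2 : 1 < ‖s‖ := (le_max_left _ _).trans_lt hR
  have h4 := (le_max_right _ _).trans_lt hR
  rw [div_lt_iff₀ h3, ← norm_mul] at h4
  have h5 : C / ‖s‖ ≤ |C| := by
    rw [div_le_iff₀ (by linarith)]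
    nlinarith [le_abs_self C, abs_nonneg C]
  linarith [norm_sub_norm_le (s * (z + gi n)) c]

lemma pers (hNI : S_NI) (hF : Hyp F) (hc : IsClosed B) {s t : ℂ} (h : ∃ t, (s, t) ∉ F)
    (h1 : (s, t) ∈ F) (h2 : (s, t) ∉ B) {r : ℝ} (hr : 0 < r) :
    ∀ᶠ s' in 𝓝 s, ∃ t' ∈ ball t r, (s', t') ∈ F ∧ (s', t') ∉ B := by
  obtain ⟨ρ, h0, hρ⟩ := Metric.isOpen_iff.1 hc.isOpen_compl _ h2
  filter_upwards [hNI F s t hF h h1 _ (lt_min hr h0), ball_mem_nhds s h0] with s' ⟨t', a, b⟩ e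
  refine ⟨t', ball_subset_ball (min_le_left _ _) a, b, hρ ?_⟩
  rw [← ball_prod_same]
  exact ⟨e, ball_subset_ball (min_le_right _ _) a⟩

/-- A closed set that contains the points over a generic base point contains the point. -/
lemma of_generic (hNI : S_NI) (hF : Hyp F) (hc : IsClosed B) {X : Set (ℂ × ℂ)} (hX : IsClosed X)
    {E : Set ℂ} (hE : E.Countable) (hg : ∀ s ∉ E, ∀ t, (s, t) ∈ F → (s, t) ∉ B → (s, t) ∈ X)
    {s t : ℂ} (h : ∃ t, (s, t) ∉ F) (h1 : (s, t) ∈ F) (h2 : (s, t) ∉ B) : (s, t) ∈ X := by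
  by_contra h3
  obtain ⟨s', a, t', -, b1, b2⟩ := ((mem_closure_iff_frequently.1 (hE.dense_compl ℝ s)).and_eventually
    (pers hNI hF (hc.union hX) h h1 (fun e => e.elim h2 h3) one_pos)).exists
  exact b2 (Or.inr (hg s' a t' b1 fun e => b2 (Or.inl e)))

lemma vert (hID : S_ID) (hB : An B) (hI : Q.Inv B) {E : Set ℂ} (hE : E.Countable) {M : ℕ}
    (h : ∀ s ∈ Perf ∩ Far M, s ∉ E → ((0 : ℂ), s) ∈ B) {w : ℂ} (hw : w ∈ range gi) (z : ℂ) :
    (w, z) ∈ B := by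
  obtain ⟨n, rfl⟩ := hw
  have := hI _ ((hID B hB).2 0 (fun e => by
    obtain ⟨s, h1, h2, -⟩ := exists_far (hE.union e) M 0
    exact h2 (Or.inr (h s h1 fun k => h2 (Or.inl k)))) (z - conj (gi n))) n
  simpa using this

lemma horiz (hID : S_ID) (D : Data F c N C) (hB : An B) (hI : Q.Inv B) (hend : endSet F N ⊆ B)
    {z : ℂ} (h : ∀ w, (w, z) ∈ F) (w : ℂ) : (w, z) ∈ B := by
  have hz : z ∈ range gi := by
    by_contra e
    obtain ⟨w, hw⟩ := line' D e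
    exact hw (h w)
  refine vert hID hB.swap hI.swap countable_empty (M := N) (fun s hs _ => hend ⟨?_, hs, by simp⟩)
    hz w
  obtain ⟨n, rfl⟩ := hz
  have := D.inv.swap (gi n, s + conj (gi n)) (h _) (-n)
  simpa [gi_neg] using this

lemma psi0 {S : ℂ → ℂ} {R : ℝ} (hR : 0 < R) (hS : DifferentiableOn ℂ S {z | R < ‖z‖})
    (hb : ∀ z, R < ‖z‖ → ‖S z‖ ≤ 1)
    (hf : ∀ ε : ℝ, 0 < ε → ∀ R' : ℝ, ∃ z, R' < ‖z‖ ∧ ‖z * S z - c‖ < ε) {ε : ℝ} (hε : 0 < ε) :
    ∃ R' : ℝ, ∀ z, R' < ‖z‖ → ‖z * S z - c‖ ≤ ε := by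
  have hball : ball (0 : ℂ) R⁻¹ ∈ 𝓝 (0 : ℂ) := ball_mem_nhds _ (inv_pos.2 hR)
  have hm : ∀ u ∈ ball (0 : ℂ) R⁻¹ \ {0}, R < ‖u⁻¹‖ := fun u hu =>
    psi_inv' hR hu.2 (mem_ball_zero_iff.1 hu.1)
  have hd : DifferentiableOn ℂ (fun u : ℂ => S u⁻¹) (ball 0 R⁻¹ \ {0}) :=
    hS.comp (differentiableOn_inv.mono fun u hu => hu.2) hm
  have hd2 := differentiableOn_update_limUnder_of_bddAbove hball hd
    ⟨1, by rintro _ ⟨u, hu, rfl⟩; exact hb _ (hm u hu)⟩
  set ψ := Function.update (fun u : ℂ => S u⁻¹) 0 (limUnder (𝓝[≠] 0) fun u : ℂ => S u⁻¹) with hψ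
  have e : ∀ z : ℂ, z ≠ 0 → ψ z⁻¹ = S z := fun z hz => by
    rw [hψ, Function.update_of_ne (inv_ne_zero hz), inv_inv]
  clear_value ψ
  have han : AnalyticAt ℂ ψ 0 := hd2.analyticAt hball
  choose z hz1 hz2 using fun n : ℕ => hf (1 / ((n : ℝ) + 1)) (by positivity) n
  have hz0 : ∀ n, z n ≠ 0 := fun n => norm_pos_iff.1 ((Nat.cast_nonneg n).trans_lt (hz1 n))
  have t1 : Tendsto (fun n => z n * S (z n)) atTop (𝓝 c) := by
    rw [tendsto_iff_norm_sub_tendsto_zero]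
    exact squeeze_zero (fun _ => norm_nonneg _) (fun n => (hz2 n).le)
      tendsto_one_div_add_atTop_nhds_zero_nat
  have t2 : Tendsto (fun n => (z n)⁻¹) atTop (𝓝 0) := by
    rw [tendsto_zero_iff_norm_tendsto_zero]
    simp only [norm_inv]
    exact tendsto_inv_atTop_zero.comp
      (tendsto_atTop_mono (fun n => (hz1 n).le) tendsto_natCast_atTop_atTop)
  have h0 : ψ 0 = 0 := by
    refine tendsto_nhds_unique (han.continuousAt.tendsto.comp t2) ?_
    have := t2.mul t1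
    rw [zero_mul] at this
    refine this.congr fun n => ?_
    rw [Function.comp, e _ (hz0 n), inv_mul_cancel_left₀ (hz0 n)]
  have hsl : Tendsto (fun u => u⁻¹ * ψ u) (𝓝[≠] 0) (𝓝 (deriv ψ 0)) := by
    simpa [h0] using hasDerivAt_iff_tendsto_slope_zero.1 han.differentiableAt.hasDerivAt
  have hdc : deriv ψ 0 = c := by
    have t3 : Tendsto (fun n => (z n)⁻¹) atTop (𝓝[≠] 0) :=
      tendsto_nhdsWithin_iff.2 ⟨t2, Eventually.of_forall fun n => inv_ne_zero (hz0 n)⟩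
    refine tendsto_nhds_unique (hsl.comp t3) (t1.congr fun n => ?_)
    rw [Function.comp, e _ (hz0 n), inv_inv]
  rw [hdc] at hsl
  obtain ⟨r, hr, h⟩ := Metric.eventually_nhds_iff.1
    (eventually_nhdsWithin_iff.1 (hsl.eventually (closedBall_mem_nhds c hε)))
  refine ⟨r⁻¹, fun w hw => ?_⟩
  obtain ⟨h1, h2⟩ := psi_inv hr hw
  have := h (y := w⁻¹) (by rwa [dist_zero_right]) (inv_ne_zero h1)
  rwa [e w h1, inv_inv, dist_eq_norm] at this

lemma far_conn (M : ℕ) : IsPreconnected (Far M \ range gi) := by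
  convert perf_gen (fun x => ∀ j : ℤ, x ≠ j) M (M + 1 / 2) (by linarith) (fun j e => ?_)
    (fun j e => ?_) using 1
  · ext w
    simp only [Far, Set.mem_sdiff, mem_ofPred_eq]
    rw [and_comm]
    refine and_congr_left fun _ => ⟨fun h => ?_, ?_⟩
    · by_contra k
      push Not at k
      obtain ⟨⟨a, ha⟩, b, hb⟩ := k
      exact h ⟨![a, b], Complex.ext (by simp [ha]) (by simp [hb])⟩
    · rintro (h | h) ⟨n, rfl⟩
      exacts [h _ (gi_re n), h _ (gi_im n)]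
  · have : (2 * M + 1 : ℤ) = 2 * j := by exact_mod_cast (by linarith : (2 * M + 1 : ℝ) = 2 * j)
    omega
  · have : -(2 * M + 1 : ℤ) = 2 * j := by exact_mod_cast (by linarith : -(2 * M + 1 : ℝ) = 2 * j)
    omega

/-- The part of `F \ B` near the vertical axis. -/
def Yp (F B : Set (ℂ × ℂ)) (z w : ℂ) : Prop := ‖w‖ < 1 / 2 ∧ (w, z) ∈ F ∧ (w, z) ∉ B

lemma far (hNI : S_NI) (hID : S_ID) (D : Data F c N C) (hB : An B) (hI : Q.Inv B)
    (hend : endSet F N ⊆ B) :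
    (∀ z ∈ Far (2 * N + 2), ∀ w, ¬ Yp F B z w) ∨ ∃ (G : ℂ → ℂ) (E : Set ℂ), E.Countable ∧
      DifferentiableOn ℂ G (Far (2 * N + 2)) ∧ (∀ z ∈ Far (2 * N + 2), ‖G z‖ ≤ 1) ∧
      (∀ z ∈ Far (2 * N + 2), ∀ w, Yp F B z w → G z = w) ∧
      ∀ z ∈ Far (2 * N + 2), z ∉ E → Yp F B z (G z) := by
  set M : ℕ := 2 * N + 2 with hM
  have hM' : (M : ℝ) = 2 * N + 2 := by rw [hM]; push_cast; ring
  set Y : ℂ → Set ℂ := fib (Prod.swap ⁻¹' F) (Prod.swap ⁻¹' B) (ball 0 (1 / 2)) with hY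
  have hYm : ∀ z w, w ∈ Y z ↔ Yp F B z w := fun z w => by simp [hY, fib, Yp]
  have hΩ : IsOpen (Far M \ range gi) := (isOpen_Far M).sdiff isClosed_gi
  obtain ⟨d, S, E, hE, hS, h⟩ := p_FIB (p_LOC p_ARG p_PAR) p_HANK (Prod.swap ⁻¹' F)
    (Prod.swap ⁻¹' B) (ball 0 (1 / 2)) _ D.hyp.swap hB.swap isOpen_ball hΩ (far_conn M)
    (fun z hz => line' D hz.2) (fun z₀ hz₀ => ⟨closedBall 0 (2 / 5), isCompact_closedBall _ _,
      closedBall_subset_ball (by norm_num), by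
        filter_upwards [(isOpen_Far M).mem_nhds hz₀.1] with z hz w hw
        obtain ⟨h1, h2, h3⟩ := (hYm z w).1 hw
        refine mem_closedBall_zero_iff.2 (not_Perf_small (fun hp => ?_) h1)
        have h4 := main_perf D hI hend h2 h3 hp
        have h5 := norm_sub_norm_le (conj z) w
        rw [norm_conj, norm_sub_rev] at h5
        linarith [Far_norm hz]⟩)
  rw [← hY] at h
  have near : ∀ z ∈ Far M, ∀ w, Yp F B z w → ∀ r : ℝ, 0 < r →
      ∀ᶠ z' in 𝓝[≠] z, z' ∈ Far M \ range gi ∧ ∃ w' ∈ ball w r, w' ∈ Y z' := by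
    intro z hz w ⟨h1, h2, h3⟩ r hr
    have := pers hNI D.hyp.swap (hID _ hB.swap).1 (s := z) (t := w) (by
      by_contra k
      push Not at k
      exact h3 (horiz hID D hB hI hend k w)) h2 h3 (lt_min hr (sub_pos.2 h1))
    filter_upwards [mem_nhdsWithin_of_mem_nhds this, gi_punct z,
      mem_nhdsWithin_of_mem_nhds ((isOpen_Far M).mem_nhds hz)] with z' ⟨w', a, b⟩ e1 e2
    refine ⟨⟨e2, e1⟩, w', ball_subset_ball (min_le_left _ _) a, (hYm _ _).2 ⟨?_, b⟩⟩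
    have := norm_sub_norm_le w' w
    linarith [mem_ball_iff_norm.1 a, min_le_right r (1 / 2 - ‖w‖)]
  have hd : d ≤ 1 := by
    obtain ⟨z, hz, hzE, -⟩ := exists_far (hE.union (countable_range gi)) M 0
    have k := h z ⟨hz.2, fun e => hzE (Or.inr e)⟩
    rw [← k.2.2.1 fun e => hzE (Or.inl e)]
    refine (ncard_le_one k.1).2 fun a ha b hb => ?_
    rw [hYm] at ha hb
    exact D.e2.uniq z ⟨hz.1, Far_mono (by omega) hz.2⟩ a b ha.1 hb.1 ha.2.1 hb.2.1
  rcases Nat.le_one_iff_eq_zero_or_eq_one.1 hd with rfl | rfl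
  · refine Or.inl fun z hz w hw => ?_
    obtain ⟨z', a, w', -, b⟩ := (near z hz w hw 1 one_pos).exists
    obtain ⟨h5, h6, -⟩ := h _ a
    rw [Nat.le_zero, ncard_eq_zero h5] at h6
    rw [h6] at b
    exact b
  right
  have g1 : ∀ z ∈ Far M \ range gi, ∀ w ∈ Y z, S z = w := fun z hz w hw => by
    obtain ⟨h1, h2, -, h4⟩ := h z hz
    have h5 : (Y z).ncard = 1 := le_antisymm h2 ((ncard_pos h1).2 ⟨w, hw⟩)
    obtain ⟨a, ha⟩ := ncard_eq_one.1 h5
    rw [h4 h5, ha, finsum_mem_singleton]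
    rw [ha] at hw
    exact hw.symm
  have g2 : ∀ z ∈ Far M \ range gi, z ∉ E → S z ∈ Y z := fun z hz hzE => by
    obtain ⟨w, hw⟩ := nonempty_of_ncard_ne_zero
      (show (Y z).ncard ≠ 0 by rw [(h z hz).2.2.1 hzE]; exact one_ne_zero)
    rwa [g1 z hz w hw]
  have g3 := closed_of_dense (C := closedBall 0 1) hΩ hE hS.continuousOn isClosed_closedBall
    fun x hx hxE => mem_closedBall_zero_iff.2 (by linarith [((hYm _ _).1 (g2 x hx hxE)).1])
  obtain ⟨G, hG, eG⟩ := fib_extend (g := S) (isOpen_Far M) (fun x _ => gi_punct x) hS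
    fun t ht => ⟨max 1 ‖S t‖, by
      filter_upwards [eventually_nhdsWithin_iff.1 (gi_punct t), (isOpen_Far M).mem_nhds ht]
        with z a b
      by_cases e : z = t
      · exact e ▸ le_max_right _ _
      · exact (mem_closedBall_zero_iff.1 (g3 z ⟨b, a e⟩)).trans (le_max_left _ _)⟩
  refine ⟨G, E ∪ range gi, hE.union (countable_range gi), hG, fun z hz => ?_, fun z hz w hw => ?_,
    fun z hz e => ?_⟩
  · exact mem_closedBall_zero_iff.1 (closed_of_dense (C := closedBall 0 1) (isOpen_Far M)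
      (countable_range gi) hG.continuousOn isClosed_closedBall
      (fun x a b => by rw [eG x b]; exact g3 x ⟨a, b⟩) z hz)
  · refine tendsto_nhds_unique (l := 𝓝[≠] z) ((hG.continuousOn.continuousAt
      ((isOpen_Far M).mem_nhds hz)).tendsto.mono_left nhdsWithin_le_nhds)
      (Metric.tendsto_nhds.2 fun r hr => ?_)
    filter_upwards [near z hz w hw r hr] with z' ⟨a, w', b, e⟩
    rwa [eG z' a.2, g1 z' a w' e]
  · rw [eG z fun k => e (Or.inr k)]
    exact (hYm _ _).1 (g2 z ⟨hz, fun k => e (Or.inr k)⟩ fun k => e (Or.inl k))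

end Pool.Agent.P.MP_a11f68_mp.R
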