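import Mathlib

namespace Pool.Agent.P.MP_a11f68_mp

open Complex Real

/-- The Weierstrass sigma function of the lattice of Gaussian integers, up to a constant factor. -/
noncomputable def sigmaG (w : ℂ) : ℂ :=
  cexp (π * w ^ 2 / 2 + π * I * w) * jacobiTheta₂ (w + (1 + I) / 2) I

/-- The value at `ε = 0` of `H (d / dε)` applied to `exp (ε z) σ (w - ε / π)`. -/
noncomputable def cmEquation (H : Polynomial ℂ) (w z : ℂ) : ℂ :=
  ∑ m ∈ Finset.range (H.natDegree + 1),
    H.coeff m * iteratedDeriv m (fun ε => cexp (ε * z) * sigmaG (w - ε / π)) 0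

end Pool.Agent.P.MP_a11f68_mp
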