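import Pool.Agent.P.MP_a11f68_mp.R.Iface

namespace Pool.Agent.P.MP_a11f68_mp.R

open Complex ComplexConjugate Metric Filter Topology Set Pool.Agent.P.MP_a11f68_mp.Q
open scoped Real

open Polynomial in
theorem cls_top (d : ℕ) (a b : ℕ → ℂ) (c k : ℂ)
    (h : ∀ z, ∑ j ∈ Finset.range (d + 1), a j * (z + c) ^ j =
      k * ∑ j ∈ Finset.range (d + 1), b j * z ^ j) : a d = k * b d := by
  have h1 : ∑ j ∈ Finset.range (d + 1), C (a j) * (X + C c) ^ j =
      C k * ∑ j ∈ Finset.range (d + 1), C (b j) * X ^ j := Polynomial.funext fun z => by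
    simpa [eval_finsetSum] using h z
  have h2 := congrArg (fun p => p.coeff d) h1
  simp only [coeff_C_mul, finsetSum_coeff, coeff_X_add_C_pow, coeff_X_pow] at h2
  rw [Finset.sum_range_succ, Finset.sum_range_succ, Finset.sum_eq_zero, Finset.sum_eq_zero] at h2
  · simpa using h2
  · intro j hj
    rw [if_neg (Finset.mem_range.1 hj).ne', mul_zero]
  · intro j hj
    rw [Nat.choose_eq_zero_of_lt (Finset.mem_range.1 hj), Nat.cast_zero, mul_zero, mul_zero]

theorem cls_theta {f : ℂ → ℂ} (hf : Differentiable ℂ f)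
    (h1 : ∀ w, f (w + 1) = -cexp (π * (w + 1 / 2)) * f w)
    (h2 : ∀ w, f (w + I) = -cexp (-(π * I) * (w + I / 2)) * f w) :
    IsTheta 1 (-1) (-cexp π) fun w => cexp (-(π * w ^ 2 / 2)) * f w where
  diff := by fun_prop
  one w := by
    have : cexp (-(π * (w + 1) ^ 2 / 2)) * cexp (π * (w + 1 / 2)) = cexp (-(π * w ^ 2 / 2)) := by
      rw [← Complex.exp_add]; congr 1; ring
    rw [h1]
    linear_combination (-f w) * this
  imag w := by
    have : cexp (-(π * (w + I) ^ 2 / 2)) * cexp (-(π * I) * (w + I / 2)) =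
        cexp π * cexp (-(2 * π * I * ((1 : ℕ) : ℂ) * w)) * cexp (-(π * w ^ 2 / 2)) := by
      rw [← Complex.exp_add, ← Complex.exp_add, ← Complex.exp_add]
      congr 1
      push_cast
      linear_combination (-π : ℂ) * I_sq
    rw [h2]
    linear_combination (-f w) * this

theorem cls_sig (hSIG : S_SIG) {f : ℂ → ℂ} (hf : Differentiable ℂ f)
    (h1 : ∀ w, f (w + 1) = -cexp (π * (w + 1 / 2)) * f w)
    (h2 : ∀ w, f (w + I) = -cexp (-(π * I) * (w + I / 2)) * f w) :
    ∃ h : ℂ, ∀ w, f w = h * sigmaG w := by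
  obtain ⟨s1, s2, s3, -, s5⟩ := hSIG
  have h0 : sigmaG (1 / 2) ≠ 0 := fun e => by
    obtain ⟨n, hn⟩ := (s5 _).1 e
    have h3 := congrArg Complex.re hn
    simp only [gi, add_re, intCast_re, mul_re, I_re, intCast_im, I_im, mul_zero, zero_mul, sub_self,
      add_zero] at h3
    have h4 : ((2 * n 0 : ℤ) : ℝ) = (1 : ℤ) := by
      push_cast
      rw [h3]
      norm_num
    have := Int.cast_injective h4
    omega
  obtain ⟨h, hh⟩ := IsTheta.dim_one (by simp) (by simp) (cls_theta hf h1 h2) (cls_theta s1 s2 s3)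
    (w := 1 / 2) (mul_ne_zero (Complex.exp_ne_zero _) h0)
  refine ⟨h, fun w => mul_left_cancel₀ (Complex.exp_ne_zero (-(π * w ^ 2 / 2))) ?_⟩
  rw [hh w]
  ring

theorem cls_pow (m : ℕ) (w z : ℂ) : cmEquation (Polynomial.X ^ m) w z =
    iteratedDeriv m (fun ε => cexp (ε * z) * sigmaG (w - ε / π)) 0 := by
  simp [cmEquation, Polynomial.coeff_X_pow]

/-- The expansion in the basic solutions. -/
def cls_P (d : ℕ) : Prop := ∀ a : ℕ → ℂ → ℂ, (∀ j, Differentiable ℂ (a j)) →
  Law (fun w z => ∑ j ∈ Finset.range d, a j w * z ^ j) → ∃ g : ℕ → ℂ, ∀ w z,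
    ∑ j ∈ Finset.range d, a j w * z ^ j =
      ∑ m ∈ Finset.range d, g m * cmEquation (Polynomial.X ^ m) w z

theorem cls_step (hCM : S_CM) {d : ℕ} (ih : cls_P d) (h : ℂ) (a : ℕ → ℂ → ℂ)
    (ha : ∀ j, Differentiable ℂ (a j))
    (hl : Law fun w z => h * sigmaG w * z ^ d + ∑ j ∈ Finset.range d, a j w * z ^ j) :
    ∃ g : ℕ → ℂ, ∀ w z, h * sigmaG w * z ^ d + ∑ j ∈ Finset.range d, a j w * z ^ j =
      h * cmEquation (Polynomial.X ^ d) w z +
        ∑ m ∈ Finset.range d, g m * cmEquation (Polynomial.X ^ m) w z := by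
  obtain ⟨l, b, hb, e, -⟩ := hCM _ (Polynomial.monic_X_pow d)
  rw [Polynomial.natDegree_X_pow] at e
  have e1 : ∀ w z, ∑ j ∈ Finset.range d, (a j w - h * b j w) * z ^ j =
      h * sigmaG w * z ^ d + ∑ j ∈ Finset.range d, a j w * z ^ j -
        h * cmEquation (Polynomial.X ^ d) w z := fun w z => by
    simp only [e, sub_mul, Finset.sum_sub_distrib, mul_add, Finset.mul_sum, mul_assoc]
    ring
  obtain ⟨g, hg⟩ := ih (fun j w => a j w - h * b j w) (fun j => (ha j).sub ((hb j).const_mul h))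
    ⟨fun w z => by
      have h1 := hl.1 w z
      simp only [e1] at h1 ⊢
      rw [h1, l.1]
      ring, fun w z => by
      have h1 := hl.2 w z
      simp only [e1] at h1 ⊢
      rw [h1, l.2]
      ring⟩
  exact ⟨g, fun w z => by rw [← hg, e1]; ring⟩

theorem cls_all (hSIG : S_SIG) (hCM : S_CM) (d : ℕ) : cls_P d := by
  induction d with
  | zero => exact fun a _ _ => ⟨0, by simp⟩
  | succ d ih =>
    intro a ha hl
    obtain ⟨h, hh⟩ := cls_sig hSIG (ha d)
      (fun w => cls_top d (fun j => a j (w + 1)) (fun j => a j w) 1 _ (hl.1 w))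
      fun w => cls_top d (fun j => a j (w + I)) (fun j => a j w) (-I) _ (hl.2 w)
    have e : ∀ w z, ∑ j ∈ Finset.range (d + 1), a j w * z ^ j =
        h * sigmaG w * z ^ d + ∑ j ∈ Finset.range d, a j w * z ^ j := fun w z => by
      rw [Finset.sum_range_succ, hh, add_comm]
    simp only [e] at hl ⊢
    obtain ⟨g, hg⟩ := cls_step hCM ih h a ha hl
    refine ⟨fun m => if m = d then h else g m, fun w z => ?_⟩
    beta_reduce
    rw [hg, Finset.sum_range_succ, if_pos rfl, add_comm]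
    congr 1
    exact Finset.sum_congr rfl fun m hm => by rw [if_neg (Finset.mem_range.1 hm).ne]

open Polynomial in
theorem p_CLS (hSIG : S_SIG) (hCM : S_CM) : S_CLS := by
  intro d a ha hl
  obtain ⟨g, hg⟩ := cls_step hCM (cls_all hSIG hCM d) 1 a ha (by simpa only [one_mul] using hl)
  simp only [one_mul, cls_pow] at hg
  have hc : ∀ m, (∑ j ∈ Finset.range d, C (g j) * X ^ j).coeff m = if m < d then g m else 0 :=
    fun m => by simp [coeff_X_pow]
  have h1 : (∑ j ∈ Finset.range d, C (g j) * X ^ j).degree < (d : WithBot ℕ) :=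
    (degree_lt_iff_coeff_zero _ _).2 fun m hm => by rw [hc, if_neg hm.not_gt]
  have h2 : (X ^ d + ∑ j ∈ Finset.range d, C (g j) * X ^ j).natDegree = d :=
    natDegree_eq_of_degree_eq_some (by
      rw [degree_add_eq_left_of_degree_lt (by rwa [degree_X_pow]), degree_X_pow])
  refine ⟨_, monic_X_pow_add h1, h2, fun w z => ?_⟩
  rw [hg, cmEquation, h2, Finset.sum_range_succ, add_comm, coeff_add, hc, if_neg (lt_irrefl d),
    coeff_X_pow_self, add_zero, one_mul]
  congr 1
  refine Finset.sum_congr rfl fun m hm => ?_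
  have := Finset.mem_range.1 hm
  rw [coeff_add, hc, if_pos this, coeff_X_pow, if_neg this.ne, zero_add]

end Pool.Agent.P.MP_a11f68_mp.R
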