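import Pool.Agent.P.MP_a11f68_mp.R.Iface

namespace Pool.Agent.P.MP_a11f68_mp.R

open Complex ComplexConjugate Metric Filter Topology Set Pool.Agent.P.MP_a11f68_mp.Q
open scoped Real

theorem cm_pi : (π : ℂ) ≠ 0 := by exact_mod_cast Real.pi_ne_zero

theorem cm_scale (H : Polynomial ℂ) (c w z w' z' : ℂ)
    (h : ∀ ε : ℂ, cexp (ε * z') * sigmaG (w' - ε / π) = c * (cexp (ε * z) * sigmaG (w - ε / π))) :
    cmEquation H w' z' = c * cmEquation H w z := by
  unfold cmEquation
  rw [Finset.mul_sum]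
  refine Finset.sum_congr rfl fun m _ => ?_
  rw [show (fun ε : ℂ => cexp (ε * z') * sigmaG (w' - ε / π)) =
    fun ε : ℂ => c * (cexp (ε * z) * sigmaG (w - ε / π)) from funext h,
    iteratedDeriv_const_mul_field]
  ring

theorem cm_law (hSIG : S_SIG) (H : Polynomial ℂ) : Law (cmEquation H) := by
  obtain ⟨-, h1, hI, -, -⟩ := hSIG
  refine ⟨fun w z => cm_scale H _ _ _ _ _ fun ε => ?_, fun w z => cm_scale H _ _ _ _ _ fun ε => ?_⟩
  · rw [show w + 1 - ε / π = (w - ε / π) + 1 by ring, h1]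
    have : cexp (ε * (z + 1)) * cexp (π * (w - ε / π + 1 / 2)) =
        cexp (π * (w + 1 / 2)) * cexp (ε * z) := by
      rw [← Complex.exp_add, ← Complex.exp_add]
      congr 1
      have := cm_pi
      field_simp
      ring
    linear_combination (-sigmaG (w - ε / π)) * this
  · rw [show w + I - ε / π = (w - ε / π) + I by ring, hI]
    have : cexp (ε * (z - I)) * cexp (-(π * I) * (w - ε / π + I / 2)) =
        cexp (-(π * I) * (w + I / 2)) * cexp (ε * z) := by
      rw [← Complex.exp_add, ← Complex.exp_add]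
      congr 1
      have := cm_pi
      field_simp
      ring
    linear_combination (-sigmaG (w - ε / π)) * this

theorem cm_shift (hd : Differentiable ℂ sigmaG) (k : ℕ) (w : ℂ) :
    iteratedDeriv k (fun ε : ℂ => sigmaG (w - ε / π)) 0 =
      (-1 / π : ℂ) ^ k * iteratedDeriv k sigmaG w := by
  have hc : ContDiff ℂ k (fun u : ℂ => sigmaG (w + u)) :=
    (hd.contDiff (n := k)).comp (contDiff_const.add contDiff_id)
  have h1 := iteratedDeriv_comp_const_mul hc (-1 / π : ℂ)
  have h2 : (fun ε : ℂ => sigmaG (w - ε / π)) = fun x : ℂ => sigmaG (w + (-1 / π : ℂ) * x) := by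
    funext x
    congr 1
    ring
  rw [h2, h1]
  simp only [mul_zero]
  rw [iteratedDeriv_comp_const_add]
  simp

theorem cm_T (hd : Differentiable ℂ sigmaG) (m : ℕ) (w z : ℂ) :
    iteratedDeriv m (fun ε : ℂ => cexp (ε * z) * sigmaG (w - ε / π)) 0 =
      ∑ i ∈ Finset.range (m + 1),
        (m.choose i : ℂ) * z ^ i * ((-1 / π : ℂ) ^ (m - i) * iteratedDeriv (m - i) sigmaG w) := by
  have hf : ContDiffAt ℂ m (fun ε : ℂ => cexp (ε * z)) 0 := by fun_prop
  have hg : ContDiffAt ℂ m (fun ε : ℂ => sigmaG (w - ε / π)) 0 :=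
    ((hd.contDiff (n := m)).comp (by fun_prop)).contDiffAt
  rw [iteratedDeriv_fun_mul hf hg]
  refine Finset.sum_congr rfl fun i _ => ?_
  rw [cm_shift hd]
  have : (fun ε : ℂ => cexp (ε * z)) = fun ε : ℂ => cexp (z * ε) := by
    funext x; rw [mul_comm]
  rw [this, iteratedDeriv_cexp_const_mul]
  simp

/-- The coefficient functions. -/
noncomputable def cm_a (H : Polynomial ℂ) (j : ℕ) (w : ℂ) : ℂ :=
  ∑ m ∈ Finset.range (H.natDegree + 1),
    H.coeff m * (m.choose j : ℂ) * ((-1 / π : ℂ) ^ (m - j) * iteratedDeriv (m - j) sigmaG w)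

theorem cm_expand (hd : Differentiable ℂ sigmaG) (H : Polynomial ℂ) (w z : ℂ) :
    cmEquation H w z = ∑ j ∈ Finset.range (H.natDegree + 1), cm_a H j w * z ^ j := by
  unfold cmEquation cm_a
  simp_rw [Finset.sum_mul]
  rw [Finset.sum_comm]
  refine Finset.sum_congr rfl fun m hm => ?_
  rw [cm_T hd, Finset.mul_sum]
  have hsub : Finset.range (m + 1) ⊆ Finset.range (H.natDegree + 1) :=
    Finset.range_subset_range.2 (by have := Finset.mem_range.1 hm; omega)
  rw [← Finset.sum_subset hsub]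
  · refine Finset.sum_congr rfl fun i _ => by ring
  · intro i _ hi
    have : m < i := by
      by_contra h
      exact hi (Finset.mem_range.2 (by omega))
    simp [Nat.choose_eq_zero_of_lt this]

theorem cm_top (H : Polynomial ℂ) (hH : H.Monic) (w : ℂ) : cm_a H H.natDegree w = sigmaG w := by
  unfold cm_a
  rw [Finset.sum_range_succ, Finset.sum_eq_zero]
  · simp [hH.coeff_natDegree]
  · intro m hm
    simp [Nat.choose_eq_zero_of_lt (Finset.mem_range.1 hm)]

theorem cm_next (H : Polynomial ℂ) (hH : H.Monic) (h0 : sigmaG 0 = 0) (hp : 0 < H.natDegree) :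
    cm_a H (H.natDegree - 1) 0 = -(H.natDegree / π) * deriv sigmaG 0 := by
  unfold cm_a
  have hc := hH.coeff_natDegree
  obtain ⟨e, he⟩ : ∃ e, H.natDegree = e + 1 := ⟨H.natDegree - 1, by omega⟩
  rw [he] at hc ⊢
  rw [Finset.sum_range_succ, Finset.sum_range_succ, Finset.sum_eq_zero]
  · simp only [Nat.add_sub_cancel, Nat.sub_self, iteratedDeriv_zero, h0, hc,
      Nat.add_sub_cancel_left, Nat.choose_succ_self_right, iteratedDeriv_one]
    push_cast
    ring
  · intro m hm
    simp [Nat.choose_eq_zero_of_lt (Finset.mem_range.1 hm)]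

theorem p_CM (hSIG : S_SIG) : S_CM := by
  intro H hH
  have hd := hSIG.1
  have h0 : sigmaG 0 = 0 := (hSIG.2.2.2.2 0).2 ⟨0, by simp [gi]⟩
  refine ⟨cm_law hSIG H, cm_a H, fun j => ?_, fun w z => ?_, cm_next H hH h0⟩
  · unfold cm_a
    refine Differentiable.fun_sum fun m _ => ?_
    have : Differentiable ℂ (iteratedDeriv (m - j) sigmaG) :=
      (hd.contDiff (n := ((m - j + 1 : ℕ) : WithTop ℕ∞))).differentiable_iteratedDeriv (m - j)
        (by exact_mod_cast Nat.lt_succ_self _)
    fun_prop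
  · rw [cm_expand hd, Finset.sum_range_succ, cm_top H hH, add_comm]

end Pool.Agent.P.MP_a11f68_mp.R
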