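import Pool.Agent.P.MP_a11f68_mp.R.Iface

namespace Pool.Agent.P.MP_a11f68_mp.R

open Complex ComplexConjugate Metric Filter Topology Set Pool.Agent.P.MP_a11f68_mp.Q
open scoped Real

lemma fibp_det {r : ℕ} {Z : Finset ℂ} (W : ℂ → ℂ) (hc : Z.card = r) (z : ℂ) :
    (z • hank r 0 Z W - hank r 1 Z W).det = (hank r 0 Z W).det * ∏ t ∈ Z, (z - t) := by
  let e := (Finset.equivFinOfCardEq hc).symm
  rw [hank_eq W e 0, hank_eq W e 1, ← Matrix.smul_mul, ← Matrix.mul_smul, ← Matrix.sub_mul,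
    ← Matrix.mul_sub, ← Matrix.diagonal_smul, Matrix.diagonal_sub]
  simp only [Matrix.det_mul, Matrix.det_diagonal, Pi.smul_apply, smul_eq_mul, pow_zero, pow_one,
    mul_one]
  have k : ∏ x, (z * W (e x) - W (e x) * e x) = (∏ x, W (e x)) * ∏ x, (z - e x) := by
    rw [← Finset.prod_mul_distrib]
    exact Finset.prod_congr rfl fun i _ => by ring
  rw [← Finset.prod_coe_sort Z, ← e.prod_comp, k]
  ring

theorem fibp_local {s₀ : ℂ} {δ : ℝ} (hδ : 0 < δ) {M : ℕ} {Z : ℂ → Finset ℂ}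
    (hM : ∀ s ∈ ball s₀ δ, (Z s).card ≤ M)
    (hW : ∀ s₁ ∈ ball s₀ δ, ∃ W : ℂ → ℂ → ℂ, (∀ t ∈ Z s₁, W s₁ t ≠ 0) ∧
      ∀ a : ℕ, DifferentiableOn ℂ (fun s => ∑ t ∈ Z s, W s t * t ^ a) (ball s₀ δ)) :
    ∃ r : ℕ, ∀ s ∈ ball s₀ δ, (Z s).card ≤ r ∧ (∀ᶠ s' in 𝓝[≠] s, (Z s').card = r) ∧
      ((Z s).card = r → ∀ z, DifferentiableAt ℂ (fun s => ∏ t ∈ Z s, (z - t)) s) := by
  obtain ⟨r, hr⟩ := fib_local p_HANK hδ hM hW
  refine ⟨r, fun s hs => ⟨(hr s hs).1, (hr s hs).2.1, fun hc z => ?_⟩⟩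
  obtain ⟨W, hW1, hW2⟩ := hW s hs
  have he : ∀ k (a b : Fin r),
      DifferentiableOn ℂ (fun s => hank r k (Z s) (W s) a b) (ball s₀ δ) :=
    fun k a b => hW2 _
  have hH := fib_det (he 0)
  have hG : DifferentiableOn ℂ
      (fun s => (z • hank r 0 (Z s) (W s) - hank r 1 (Z s) (W s)).det) (ball s₀ δ) :=
    fib_det fun a b => ((he 0 a b).const_mul z).sub (he 1 a b)
  have h1 := (p_HANK r _ _ hc.le).1.2 ⟨hc, hW1⟩
  have hb := isOpen_ball.mem_nhds hs
  refine (((hG.differentiableAt hb).div (hH.differentiableAt hb) h1)).congr_of_eventuallyEq ?_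
  filter_upwards [hb, (hH.differentiableAt hb).continuousAt.eventually_ne h1] with s' a b
  have k := ((p_HANK r _ _ (hr s' a).1).1.1 b).1
  exact (eq_div_iff b).2 ((mul_comm _ _).trans (fibp_det _ k z).symm)

lemma fibp_coef {d : ℕ} {Z : Finset ℂ} (hc : Z.card = d) (z : ℂ) :
    ∏ t ∈ Z, (z - t) = z ^ d + ∑ j ∈ Finset.range d, (∑ i ∈ Finset.range (d + 1),
      (∏ t ∈ Z, ((i : ℂ) - t)) *
        (Lagrange.basis (Finset.range (d + 1)) (Nat.cast : ℕ → ℂ) i).coeff j) * z ^ j := by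
  set P : Polynomial ℂ := ∏ t ∈ Z, (Polynomial.X - Polynomial.C t) with hP
  have ev : ∀ x, P.eval x = ∏ t ∈ Z, (x - t) := fun x => by simp [hP, Polynomial.eval_prod]
  have mo : P.Monic := Polynomial.monic_prod_X_sub_C _ _
  have dg : P.natDegree = d := by
    rw [hP, Polynomial.natDegree_finsetProd_X_sub_C_eq_card, hc]
  have e := Lagrange.eq_interpolate (s := Finset.range (d + 1)) (v := (Nat.cast : ℕ → ℂ)) (f := P)
    Nat.cast_injective.injOn (by
      rw [Polynomial.degree_eq_natDegree mo.ne_zero, dg, Finset.card_range]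
      exact_mod_cast d.lt_succ_self)
  rw [← ev, Polynomial.eval_eq_sum_range, dg, Finset.sum_range_succ, add_comm]
  congr 1
  · rw [← dg, mo.coeff_natDegree, one_mul]
  · refine Finset.sum_congr rfl fun j _ => ?_
    congr 1
    conv_lhs => rw [e, Lagrange.interpolate_apply, Polynomial.finsetSum_coeff]
    exact Finset.sum_congr rfl fun i _ => by rw [Polynomial.coeff_C_mul, ev]

theorem p_FIBP : S_FIBP := by
  intro F B O Ω hF hB hO hΩ hc hne hK
  rcases Ω.eq_empty_or_nonempty with rfl | ⟨x₀, hx₀⟩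
  · exact ⟨0, fun _ _ => 0, ∅, countable_empty, fun _ => differentiableOn_const _,
      fun s hs => hs.elim⟩
  set S₀ : ℂ → ℂ → ℂ := fun z s => ∏ᶠ t ∈ fib F B O s, (z - t) with hS₀
  have loc : ∀ s₀ ∈ Ω, ∃ r : ℕ, ∀ᶠ s in 𝓝 s₀, (fib F B O s).Finite ∧ (fib F B O s).ncard ≤ r ∧
      (∀ᶠ s' in 𝓝[≠] s, (fib F B O s').ncard = r) ∧
      ((fib F B O s).ncard = r → ∀ z, DifferentiableAt ℂ (S₀ z) s) := by
    intro s₀ hs₀
    obtain ⟨K, hK1, hK2, hK3⟩ := hK s₀ hs₀
    obtain ⟨δ, hδ, M, Z, hZ, hW⟩ :=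
      p_LOC p_ARG p_PAR F B O K s₀ hF hB hO hK1 hK2 (hne s₀ hs₀) hK3
    obtain ⟨r, hr⟩ := fibp_local hδ (fun s hs => (hZ s hs).2) hW
    have hcard : ∀ s ∈ ball s₀ δ, (fib F B O s).ncard = (Z s).card := fun s hs => by
      rw [← (hZ s hs).1, ncard_coe_finset]
    refine ⟨r, ?_⟩
    filter_upwards [ball_mem_nhds s₀ hδ] with s hs
    have hb := isOpen_ball.mem_nhds hs
    refine ⟨by rw [← (hZ s hs).1]; exact Finset.finite_toSet _, by
      rw [hcard s hs]; exact (hr s hs).1, ?_, fun h z => ?_⟩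
    · filter_upwards [(hr s hs).2.1, mem_nhdsWithin_of_mem_nhds hb] with s' a b
      rw [hcard s' b, a]
    · refine ((hr s hs).2.2 (by rw [← hcard s hs, h]) z).congr_of_eventuallyEq ?_
      filter_upwards [hb] with s' b
      simp only [hS₀]
      rw [← (hZ s' b).1, finprod_mem_coe_finset]
  choose! r hr using loc
  have hconst : ∀ s ∈ Ω, r s = r x₀ := by
    intro s hs
    refine hc.constant (f := r) (fun x hx => ?_) hs hx₀
    refine (continuousAt_const (y := r x)).continuousWithinAt.congr_of_eventuallyEq ?_ rfl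
    filter_upwards [mem_nhdsWithin_of_mem_nhds (hr x hx), self_mem_nhdsWithin] with y hy hyΩ
    obtain ⟨z, h1, h2⟩ := (hy.2.2.1.and (hr y hyΩ).self_of_nhds.2.2.1).exists
    rw [← h2, h1]
  set d := r x₀ with hd
  have hpt : ∀ s ∈ Ω, (fib F B O s).Finite ∧ (fib F B O s).ncard ≤ d ∧
      (∀ᶠ s' in 𝓝[≠] s, (fib F B O s').ncard = d) ∧
      ((fib F B O s).ncard = d → ∀ z, DifferentiableAt ℂ (S₀ z) s) := fun s hs => by
    rw [← hconst s hs]; exact (hr s hs).self_of_nhds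
  set E : Set ℂ := {s | s ∈ Ω ∧ (fib F B O s).ncard ≠ d} with hE
  have hT : ∀ x ∈ Ω, ∀ᶠ z in 𝓝[≠] x, z ∉ E := fun x hx => by
    filter_upwards [(hpt x hx).2.2.1] with z hz h
    exact h.2 hz
  have hEc : E.Countable := by
    obtain ⟨E', -, h2, h3⟩ := TopologicalSpace.countable_cover_nhdsWithin (s := E)
      (f := fun x => {x}) (fun x hx => by
        have := eventually_nhdsWithin_iff.1 (hT x hx.1)
        rw [mem_nhdsWithin_iff_eventually]
        filter_upwards [this] with z hz hzE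
        by_contra hzx
        exact hz hzx hzE)
    exact h2.mono (by simpa using h3)
  choose S hS hSS using fun w : ℂ => fib_extend (g := S₀ w) hΩ hT
    (fun s hs => ((hpt s hs.1).2.2.2 (by
      by_contra h; exact hs.2 ⟨hs.1, h⟩) w).differentiableWithinAt) (fun t ht => by
      obtain ⟨K, hK1, -, hK3⟩ := hK t ht
      obtain ⟨ρ, hρ0, hρ⟩ := hK1.isBounded.exists_pos_norm_le
      refine ⟨(‖w‖ + ρ + 1) ^ d, ?_⟩
      filter_upwards [hK3, hΩ.mem_nhds ht] with z hz hzΩ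
      obtain ⟨h1, h2, -⟩ := hpt z hzΩ
      simp only [hS₀]
      rw [finprod_mem_eq_finite_toFinset_prod _ h1, norm_prod]
      have k := norm_nonneg w
      refine (Finset.prod_le_prod (g := fun _ => ‖w‖ + ρ + 1) (fun _ _ => norm_nonneg _)
        fun x hx => (norm_sub_le _ _).trans ?_).trans ?_
      · linarith [hρ x (hz (h1.mem_toFinset.1 hx))]
      · rw [Finset.prod_const, ← ncard_eq_toFinset_card _ h1]
        exact pow_le_pow_right₀ (by linarith) h2)
  refine ⟨d, fun j s => ∑ i ∈ Finset.range (d + 1), S i s *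
    (Lagrange.basis (Finset.range (d + 1)) (Nat.cast : ℕ → ℂ) i).coeff j, E, hEc,
    fun j => DifferentiableOn.fun_sum fun i _ => (hS i).mul_const _,
    fun s hs => ⟨(hpt s hs).1, (hpt s hs).2.1, fun h => ?_, fun h z => ?_⟩⟩
  · by_contra h'; exact h ⟨hs, h'⟩
  · have h1 := (hpt s hs).1
    have h2 : ∀ w, S w s = ∏ t ∈ h1.toFinset, (w - t) := fun w => by
      rw [hSS w s fun h' => h'.2 h]
      exact finprod_mem_eq_finite_toFinset_prod _ h1
    simp only [h2]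
    rw [finprod_mem_eq_finite_toFinset_prod _ h1]
    exact fibp_coef (by rw [← ncard_eq_toFinset_card _ h1, h]) z

end Pool.Agent.P.MP_a11f68_mp.R
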