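import Pool.Agent.P.MP_a11f68_mp.R.Iface

namespace Pool.Agent.P.MP_a11f68_mp.R

open Complex ComplexConjugate Metric Filter Topology Set Pool.Agent.P.MP_a11f68_mp.Q
open scoped Real

theorem id_sl {f : ℂ × ℂ → ℂ} {s t : ℂ} (h : AnalyticAt ℂ f (s, t)) :
    AnalyticAt ℂ (fun t => f (s, t)) t :=
  h.comp₂ analyticAt_const analyticAt_id

theorem id_closed {B : Set (ℂ × ℂ)} (hB : An B) : IsClosed B := by
  rw [← isOpen_compl_iff, isOpen_iff_mem_nhds]
  intro p hp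
  obtain ⟨U, hU, hpU, m, f, hf, e⟩ := hB p
  obtain ⟨j, hj⟩ : ∃ j, f j p ≠ 0 := by
    by_contra k
    exact hp ((e p hpU).2 fun j => not_not.1 fun h => k ⟨j, h⟩)
  filter_upwards [hU.mem_nhds hpU, (hf j p hpU).continuousAt.eventually_ne hj] with q a b
  exact fun c => b ((e q a).1 c j)

theorem id_iso {B : Set (ℂ × ℂ)} (hB : An B) {s : ℂ} (h : ∃ t, (s, t) ∉ B) (t : ℂ) :
    ∀ᶠ t' in 𝓝[≠] t, (s, t') ∉ B := by
  have key : ∀ t, (∀ᶠ t' in 𝓝 t, (s, t') ∈ B) ∨ ∀ᶠ t' in 𝓝[≠] t, (s, t') ∉ B := fun t => by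
    obtain ⟨U, hU, hp, m, f, hf, e⟩ := hB (s, t)
    have mm : ∀ᶠ t' in 𝓝 t, (s, t') ∈ U :=
      (Continuous.prodMk_right s).continuousAt.eventually (hU.mem_nhds hp)
    by_cases k : ∀ j, ∀ᶠ t' in 𝓝 t, f j (s, t') = 0
    · left
      filter_upwards [eventually_all.2 k, mm] with x k mm using (e _ mm).2 k
    · right
      obtain ⟨j, hj⟩ := not_forall.1 k
      have k2 := (id_sl (hf j _ hp)).eventually_eq_zero_or_eventually_ne_zero.resolve_left hj
      filter_upwards [k2, nhdsWithin_le_nhds mm] with x k2 mm using fun h => k2 ((e _ mm).1 h j)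
  have cl : IsClopen {t | ∀ᶠ t' in 𝓝 t, (s, t') ∈ B} := by
    refine ⟨isClosed_of_closure_subset fun t ht => ?_, isOpen_setOfPred_eventually_nhds⟩
    refine (key t).elim id fun k => ?_
    obtain ⟨x, h1, h2⟩ := ((mem_closure_iff_frequently.1 ht).and_eventually
      (eventually_nhdsWithin_iff.1 k)).exists
    by_cases e : x = t
    · exact e ▸ h1
    · exact absurd h1.self_of_nhds (h2 e)
  refine (key t).resolve_left fun k => ?_
  obtain ⟨x, hx⟩ := h
  have : x ∈ {t | ∀ᶠ t' in 𝓝 t, (s, t') ∈ B} := (cl.eq_univ ⟨t, k⟩).symm ▸ mem_univ x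
  exact hx this.self_of_nhds

theorem p_ID : S_ID := by
  intro B hB
  refine ⟨id_closed hB, fun w hw t => ?_⟩
  by_contra k
  apply hw
  obtain ⟨T, -, hT, hc⟩ := TopologicalSpace.countable_cover_nhdsWithin
    (f := fun x : ℂ => ({x} : Set ℂ)) (s := {t | (w, t) ∈ B}) fun x _ => by
      filter_upwards [nhdsWithin_le_nhds (eventually_nhdsWithin_iff.1 (id_iso hB ⟨t, k⟩ x)),
        self_mem_nhdsWithin] with y a b
      by_contra c
      exact a c b
  refine hT.mono fun y hy => ?_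
  obtain ⟨x, hx, e⟩ := mem_iUnion₂.1 (hc hy)
  exact (mem_singleton_iff.1 e) ▸ hx

end Pool.Agent.P.MP_a11f68_mp.R
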