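import Pool.Agent.P.MP_a11f68_mp.R.Iface

namespace Pool.Agent.P.MP_a11f68_mp.R

open Complex ComplexConjugate Metric Filter Topology Set Pool.Agent.P.MP_a11f68_mp.Q
open scoped Real

theorem p_NI : S_NI := by
  intro G w₀ z₀ hG h hz r hr
  obtain ⟨U, hU, hp, f, hf, e⟩ := hG (w₀, z₀)
  obtain ⟨r₀, r0, hr₀⟩ := Metric.eventually_nhds_iff.1
    (((Continuous.prodMk_right w₀).continuousAt.eventually (hU.mem_nhds hp)).and
      (eventually_nhdsWithin_iff.1 (loc_iso hG h z₀)))
  obtain ⟨ρ, ρ0, ρ1⟩ := exists_between (lt_min r0 hr)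
  have k₀ : ∀ t ∈ closedBall z₀ ρ, _ := fun t ht =>
    hr₀ (lt_of_le_of_lt ht (ρ1.trans_le (min_le_left _ _)))
  obtain ⟨m, m0, hm⟩ := (isCompact_sphere z₀ ρ).exists_forall_le' (a := 0)
    (f := fun t => ‖f (w₀, t)‖)
    (fun t ht => (loc_sl (hf _ (k₀ t (sphere_subset_closedBall ht)).1)).continuousAt.norm
      |>.continuousWithinAt) fun t ht => by
      have k := k₀ t (sphere_subset_closedBall ht)
      refine norm_pos_iff.2 fun z => k.2 (fun q => ρ0.ne ?_) ((e _ k.1).2 z)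
      rw [mem_singleton_iff.1 q] at ht
      simpa using ht
  have tube : ∀ᶠ w in 𝓝 w₀, ∀ t ∈ closedBall z₀ ρ,
      (w, t) ∈ U ∧ (t ∈ sphere z₀ ρ → m / 2 < ‖f (w, t)‖) := by
    refine (isCompact_closedBall z₀ ρ).eventually_forall_of_forall_eventually fun t ht => ?_
    have k := k₀ t ht
    refine (show ∀ᶠ z : ℂ × ℂ in 𝓝 (w₀, t), (z.1, z.2) ∈ U from hU.mem_nhds k.1).and ?_
    by_cases q : t ∈ sphere z₀ ρ
    · filter_upwards [(hf _ k.1).continuousAt.norm.eventually
        (lt_mem_nhds (show m / 2 < ‖f (w₀, t)‖ by linarith [hm t q]))] with z hz _ using hz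
    · filter_upwards [continuous_snd.continuousAt.eventually
        (isClosed_sphere.isOpen_compl.mem_nhds q)] with z hz k using absurd k hz
  have small : ∀ᶠ w in 𝓝 w₀, ‖f (w, z₀)‖ < m / 2 := by
    refine ((hf _ hp).continuousAt.comp (f := fun w => (w, z₀))
      (Continuous.prodMk_left z₀).continuousAt).norm.eventually (gt_mem_nhds ?_)
    simpa [(e _ hp).1 hz] using m0
  filter_upwards [tube, small] with w h1 h2
  by_contra hn
  have ne : ∀ t ∈ closedBall z₀ ρ, f (w, t) ≠ 0 := fun t ht z =>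
    hn ⟨t, closedBall_subset_ball (ρ1.trans_le (min_le_right _ _)) ht, (e _ (h1 t ht).1).2 z⟩
  have dc : DiffContOnCl ℂ (fun t => (f (w, t))⁻¹) (ball z₀ ρ) := by
    refine DifferentiableOn.diffContOnCl ?_
    rw [closure_ball z₀ ρ0.ne']
    exact fun t ht =>
      ((loc_sl (hf _ (h1 t ht).1)).inv (ne t ht)).differentiableAt.differentiableWithinAt
  have := Complex.norm_le_of_forall_mem_frontier_norm_le isBounded_ball dc (C := (m / 2)⁻¹)
    (fun t ht => ?_) (subset_closure (mem_ball_self ρ0))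
  · rw [norm_inv, inv_le_inv₀ (norm_pos_iff.2 (ne z₀ (mem_closedBall_self ρ0.le)))
      (half_pos m0)] at this
    exact h2.not_ge this
  · rw [frontier_ball z₀ ρ0.ne'] at ht
    rw [norm_inv]
    exact inv_anti₀ (half_pos m0) ((h1 t (sphere_subset_closedBall ht)).2 ht).le

end Pool.Agent.P.MP_a11f68_mp.R
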