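import Pool.Agent.P.MP_a11f68_mp.R.Iface

namespace Pool.Agent.P.MP_a11f68_mp.R

open Complex ComplexConjugate Metric Filter Topology Set Pool.Agent.P.MP_a11f68_mp.Q
open scoped Real

theorem odd_vt (w : ℂ) : sigmaG w = cexp (π * w ^ 2 / 2) * vt w := by
  rw [sigmaG, Complex.exp_add, mul_assoc]
  rfl

theorem odd_sig (w : ℂ) : sigmaG (-w) = -sigmaG w := by
  rw [odd_vt, odd_vt, vt_neg, neg_sq]
  ring

/-- the derivatives in the equation -/
noncomputable def odd_T (m : ℕ) (w z : ℂ) : ℂ :=
  iteratedDeriv m (fun ε => cexp (ε * z) * sigmaG (w - ε / π)) 0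

theorem odd_T_neg (m : ℕ) (w z : ℂ) : odd_T m (-w) (-z) = -((-1) ^ m * odd_T m w z) := by
  have h := iteratedDeriv_comp_neg m (fun ε => cexp (ε * z) * sigmaG (w - ε / π)) 0
  rw [neg_zero, smul_eq_mul] at h
  rw [odd_T, odd_T, ← h, ← iteratedDeriv_fun_neg]
  congr 1
  funext ε
  rw [show -w - ε / π = -(w - -ε / π) by ring, odd_sig]
  simp

theorem odd_sum (L : Polynomial ℂ) {n : ℕ} (h : L.natDegree ≤ n) (w z : ℂ) :
    cmEquation L w z = ∑ m ∈ Finset.range (n + 1), L.coeff m * odd_T m w z := by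
  refine Finset.sum_subset (Finset.range_mono (by omega)) fun m _ hm => ?_
  rw [Polynomial.coeff_eq_zero_of_natDegree_lt (by simpa using hm), zero_mul]

theorem odd_deg (d : ℕ) (b : ℕ → ℂ) :
    (∑ j ∈ Finset.range d, Polynomial.C (b j) * Polynomial.X ^ j).degree < (d : WithBot ℕ) := by
  rw [Finset.sum_range]
  exact Polynomial.degree_sum_fin_lt _

theorem p_ODD (hSIG : S_SIG) (hCM : S_CM) : S_ODD := by
  intro H E hH hE h
  obtain ⟨K, hK⟩ : ∃ K : Polynomial ℂ, K = Polynomial.C ((-1) ^ H.natDegree) *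
    H.comp (Polynomial.C (-1) * Polynomial.X) := ⟨_, rfl⟩
  have kc : ∀ m, K.coeff m = (-1) ^ H.natDegree * (H.coeff m * (-1) ^ m) := fun m => by
    rw [hK, Polynomial.coeff_C_mul, Polynomial.comp_C_mul_X_coeff]
  have k1 : K.natDegree ≤ H.natDegree := Polynomial.natDegree_le_iff_coeff_eq_zero.2 fun m hm => by
    rw [kc, Polynomial.coeff_eq_zero_of_natDegree_lt hm, zero_mul, mul_zero]
  have sq : ((-1 : ℂ) ^ H.natDegree) * (-1) ^ H.natDegree = 1 := by
    rw [← mul_pow]
    simp
  have k2 : K.coeff H.natDegree = 1 := by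
    rw [kc, hH.coeff_natDegree, one_mul, sq]
  have k3 : K.Monic := Polynomial.monic_of_natDegree_le_of_coeff_eq_one _ k1 k2
  have k4 : K.natDegree = H.natDegree :=
    Polynomial.natDegree_eq_of_le_of_coeff_ne_zero k1 (by rw [k2]; exact one_ne_zero)
  have k5 : ∀ w z, cmEquation K w z = -(-1) ^ H.natDegree * cmEquation H (-w) (-z) := fun w z => by
    rw [odd_sum K k1, odd_sum H le_rfl, Finset.mul_sum]
    refine Finset.sum_congr rfl fun m _ => ?_
    rw [kc, odd_T_neg]
    ring
  obtain ⟨w, hw⟩ : ∃ w, w ∉ E ∪ range gi := by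
    by_contra h1
    push Not at h1
    exact not_countable_complex ((hE.union (countable_range gi)).mono fun w _ => h1 w)
  have w0 : sigmaG w ≠ 0 := fun e => hw (Or.inr ((hSIG.2.2.2.2 w).1 e))
  obtain ⟨h1, h2⟩ := h w fun e => hw (Or.inl e)
  obtain ⟨-, a, -, ha, -⟩ := hCM H hH
  obtain ⟨-, a', -, ha', -⟩ := hCM K k3
  rw [k4] at ha'
  obtain ⟨s, s1, s2⟩ : ∃ s : Finset ℂ, s.card = H.natDegree ∧ ∀ z ∈ s, (w, z) ∈ Zs H := by
    by_cases hf : {z | (w, z) ∈ Zs H}.Finite
    · exact ⟨hf.toFinset, by rw [← h1, ncard_eq_toFinset_card _ hf], fun z hz => by simpa using hz⟩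
    · exact ⟨∅, by rw [← h1, Set.Infinite.ncard hf]; rfl, by simp⟩
  have e0 : ∀ z, (∑ j ∈ Finset.range H.natDegree,
      Polynomial.C (a j w - a' j w) * Polynomial.X ^ j).eval z =
      cmEquation H w z - cmEquation K w z := fun z => by
    rw [ha, ha', add_sub_add_left_eq_sub, ← Finset.sum_sub_distrib, Polynomial.eval_finsetSum]
    refine Finset.sum_congr rfl fun j _ => ?_
    simp [sub_mul]
  have e1 := Polynomial.eq_zero_of_degree_lt_of_eval_finset_eq_zero s
    (by rw [s1]; exact odd_deg H.natDegree fun j => a j w - a' j w) fun z hz => by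
      have h3 : cmEquation H w z = 0 := s2 z hz
      have h4 : cmEquation H (-w) (-z) = 0 := h2 z (s2 z hz)
      rw [e0, k5, h3, h4, mul_zero, sub_zero]
  have e2 : H = K := by
    by_contra hne
    have d0 : H - K ≠ 0 := sub_ne_zero.2 hne
    obtain ⟨-, b, -, hb, -⟩ := hCM _ (Polynomial.monic_mul_leadingCoeff_inv d0)
    generalize hn : ((H - K) * Polynomial.C (H - K).leadingCoeff⁻¹).natDegree = n at hb
    have h3 : Polynomial.C (sigmaG w) * Polynomial.X ^ n +
        ∑ j ∈ Finset.range n, Polynomial.C (b j w) * Polynomial.X ^ j = 0 := by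
      refine Polynomial.funext fun z => ?_
      have h4 := e0 z
      rw [e1, Polynomial.eval_zero, odd_sum K k1, odd_sum H le_rfl,
        ← Finset.sum_sub_distrib] at h4
      have h5 := hb w z
      rw [odd_sum _ ((Polynomial.natDegree_mul_C_le _ _).trans
        ((Polynomial.natDegree_sub_le _ _).trans (max_le le_rfl k1)))] at h5
      have h6 := congrArg ((H - K).leadingCoeff⁻¹ * ·) h4
      simp only [mul_zero, Finset.mul_sum] at h6
      simp only [Polynomial.eval_add, Polynomial.eval_finsetSum, Polynomial.eval_mul,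
        Polynomial.eval_C, Polynomial.eval_pow, Polynomial.eval_X, Polynomial.eval_zero]
      rw [← h5, h6]
      refine Finset.sum_congr rfl fun m _ => ?_
      rw [Polynomial.coeff_mul_C, Polynomial.coeff_sub]
      ring
    have h4 := congrArg (Polynomial.coeff · n) h3
    simp only [Polynomial.coeff_add, Polynomial.coeff_C_mul_X_pow, if_true,
      Polynomial.coeff_eq_zero_of_degree_lt (odd_deg n fun j => b j w), add_zero,
      Polynomial.coeff_zero] at h4
    exact w0 h4
  intro x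
  have e3 : H.eval x = (-1) ^ H.natDegree * H.eval (-x) := by
    conv_lhs => rw [e2, hK]
    simp [Polynomial.eval_comp]
  rw [e3, ← mul_assoc, sq, one_mul]

end Pool.Agent.P.MP_a11f68_mp.R
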