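import Pool.Agent.P.MP_a11f68_mp.R.Iface

namespace Pool.Agent.P.MP_a11f68_mp.R

open Complex ComplexConjugate Metric Filter Topology Set Pool.Agent.P.MP_a11f68_mp.Q
open scoped Real

theorem sig_eq (w : ℂ) : sigmaG w = cexp (π * w ^ 2 / 2) * vt w := by
  unfold sigmaG vt th cc
  rw [exp_add, mul_assoc]

theorem sig_pow {x y : ℂ} {M : ℝ} (hx : ‖x‖ ≤ M) (hy : ‖y‖ ≤ M) (m : ℕ) :
    ‖x ^ (m + 1) - y ^ (m + 1)‖ ≤ (m + 1) * M ^ m * ‖x - y‖ := by
  have M0 : 0 ≤ M := (norm_nonneg _).trans hx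
  induction m with
  | zero => simp
  | succ m ih =>
    have e : x ^ (m + 1 + 1) - y ^ (m + 1 + 1) =
        x * (x ^ (m + 1) - y ^ (m + 1)) + y ^ (m + 1) * (x - y) := by ring
    rw [e]
    refine (norm_add_le _ _).trans ?_
    rw [norm_mul, norm_mul, norm_pow]
    calc _ ≤ M * ((m + 1) * M ^ m * ‖x - y‖) + M ^ (m + 1) * ‖x - y‖ := by gcongr
      _ = _ := by push_cast; ring

theorem sig_term (w : ℂ) (n : ℕ) :
    cexp (π * I * w) * jacobiTheta₂_term n (w + cc) I +
      cexp (π * I * w) * jacobiTheta₂_term (-(n + 1)) (w + cc) I =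
    (-1) ^ n * cexp (-(π * n * (n + 1))) *
      (cexp (π * I * w) ^ (2 * n + 1) - cexp (-(π * I * w)) ^ (2 * n + 1)) := by
  have h1 : cexp (π * I * w) * jacobiTheta₂_term n (w + cc) I =
      (-1) ^ n * cexp (-(π * n * (n + 1))) * cexp (π * I * w) ^ (2 * n + 1) := by
    rw [jacobiTheta₂_term, ← exp_pi_mul_I, ← exp_nat_mul, ← exp_nat_mul, ← exp_add, ← exp_add,
      ← exp_add]
    congr 1
    unfold cc
    push_cast
    linear_combination (π * n + π * n ^ 2 : ℂ) * I_mul_I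
  have h2 : cexp (π * I * w) * jacobiTheta₂_term (-(n + 1)) (w + cc) I =
      (-1) ^ (n + 1) * cexp (-(π * n * (n + 1))) * cexp (-(π * I * w)) ^ (2 * n + 1) := by
    rw [jacobiTheta₂_term, ← exp_pi_mul_I, ← exp_nat_mul, ← exp_nat_mul, ← exp_add, ← exp_add,
      ← exp_add]
    refine exp_eq_exp_iff_exists_int.2 ⟨-(n + 1), ?_⟩
    unfold cc
    push_cast
    linear_combination (π * n + π * n ^ 2 : ℂ) * I_mul_I
  rw [h1, h2]
  ring

theorem sig_strip {w : ℂ} (hw : |w.im| ≤ 1 / 2) (h0 : vt w = 0) : ∃ m : ℤ, w = m := by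
  have hp := Real.pi_gt_three
  obtain ⟨w1, w2⟩ := abs_le.1 hw
  have hx : ‖cexp (π * I * w)‖ ≤ Real.exp (π / 2) := by
    rw [norm_exp]
    refine Real.exp_le_exp.2 ?_
    simp
    nlinarith
  have hy : ‖cexp (-(π * I * w))‖ ≤ Real.exp (π / 2) := by
    rw [norm_exp]
    refine Real.exp_le_exp.2 ?_
    simp
    nlinarith
  set x := cexp (π * I * w) with hxd
  set y := cexp (-(π * I * w)) with hyd
  have h1 : HasSum (fun n : ℕ => (-1) ^ n * cexp (-(π * n * (n + 1))) *
      (x ^ (2 * n + 1) - y ^ (2 * n + 1))) (vt w) := by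
    have h := ((hasSum_jacobiTheta₂_term (w + cc) (τ := I) (by simp)).mul_left
      (cexp (π * I * w))).nat_add_neg_add_one
    exact th2_cg h fun n => (sig_term w n).symm
  have h2 := ((hasSum_geometric_of_lt_one (r := 2 / 5) (by norm_num) (by norm_num)).mul_left
    (‖x - y‖ * (2 / 5)))
  have h3 := ((hasSum_nat_add_iff' 1).2 h1).norm_le_of_bounded h2 fun n => by
    have n0 : (0 : ℝ) ≤ n := Nat.cast_nonneg n
    have e5 : Real.exp (-1) ≤ 2 / 5 := by
      rw [Real.exp_neg, ← inv_div]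
      exact inv_anti₀ (by norm_num) (by linarith [Real.exp_one_gt_d9])
    have e0 : ‖cexp (-(π * ((n + 1 : ℕ) : ℂ) * ((n + 1 : ℕ) + 1)))‖ =
        Real.exp (-(π * (n + 1) * (n + 1 + 1))) := by
      rw [norm_exp]
      congr 1
      simp
    have e2 := Real.add_one_le_exp (2 * (n + 1 : ℝ))
    have e3 : Real.exp (-(π * (n + 1) * (n + 1 + 1))) * (Real.exp (2 * (n + 1 : ℝ)) *
        Real.exp (π / 2) ^ (2 * (n + 1))) ≤ (2 / 5) ^ (n + 1) := by
      refine le_trans ?_ (pow_le_pow_left₀ (Real.exp_pos _).le e5 _)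
      rw [← Real.exp_nat_mul, ← Real.exp_nat_mul, ← Real.exp_add, ← Real.exp_add]
      refine Real.exp_le_exp.2 ?_
      push_cast
      nlinarith [mul_nonneg (sub_nonneg.2 hp.le) (mul_self_nonneg (n + 1 : ℝ)), mul_self_nonneg n]
    rw [norm_mul, norm_mul, norm_pow, norm_neg, norm_one, one_pow, one_mul, e0]
    calc _ ≤ Real.exp (-(π * (n + 1) * (n + 1 + 1))) * ((((2 * (n + 1) : ℕ) : ℝ) + 1) *
          Real.exp (π / 2) ^ (2 * (n + 1)) * ‖x - y‖) := by
          gcongr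
          exact sig_pow hx hy _
      _ ≤ Real.exp (-(π * (n + 1) * (n + 1 + 1))) * (Real.exp (2 * (n + 1 : ℝ)) *
          Real.exp (π / 2) ^ (2 * (n + 1)) * ‖x - y‖) := by
          gcongr
          push_cast
          exact e2
      _ ≤ (2 / 5) ^ (n + 1) * ‖x - y‖ := by
          rw [← mul_assoc]
          gcongr
      _ = _ := by ring
  rw [h0, Finset.sum_range_one, zero_sub, norm_neg] at h3
  simp only [Nat.cast_zero, mul_zero, zero_mul, neg_zero, exp_zero, pow_zero, one_mul, zero_add,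
    pow_one] at h3
  have h4 : x = y := by
    rw [← sub_eq_zero, ← norm_le_zero_iff]
    norm_num at h3
    linarith
  obtain ⟨m, hm⟩ := exp_eq_exp_iff_exists_int.1 h4
  refine ⟨m, mul_left_cancel₀ two_pi_I_ne_zero ?_⟩
  linear_combination hm

theorem sig_one (k : ℤ) (w : ℂ) : vt (w + k * 1) = 0 ↔ vt w = 0 :=
  aset_shift (P := fun w _ => vt w = 0) (b := 0) (fun w _ => by simp [vt_theta.one]) k w 0

theorem sig_I (k : ℤ) (w : ℂ) : vt (w + k * I) = 0 ↔ vt w = 0 :=
  aset_shift (P := fun w _ => vt w = 0) (b := 0) (fun w _ => by simp [vt_theta.imag']) k w 0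

theorem sig_der : deriv vt 0 ≠ 0 := by
  have h1 : HasDerivAt (fun z : ℂ => z + cc) 1 0 := (hasDerivAt_id _).add_const _
  have h2 := (hasDerivAt_jacobiTheta₂_fst (0 + cc) (τ := I) (by simp)).comp 0 h1
  have h3 : DifferentiableAt ℂ (fun z : ℂ => cexp (π * I * z)) 0 := by fun_prop
  have h4 : deriv vt 0 = _ := (h3.hasDerivAt.mul h2).deriv
  have h5 : jacobiTheta₂ cc I = 0 := th_cc
  have h6 := th1_der (d := 1) one_pos
  rw [Nat.cast_one, one_mul, ← add_div] at h6
  rw [h4, Function.comp_apply, zero_add, h5, mul_zero, zero_add, mul_one]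
  exact mul_ne_zero (exp_ne_zero _) h6

theorem p_SIG : S_SIG := by
  have hf : sigmaG = fun w => cexp (π * w ^ 2 / 2) * vt w := funext sig_eq
  have hv := vt_diff
  refine ⟨by rw [hf]; fun_prop, fun w => ?_, fun w => ?_, ?_, fun w => ?_⟩
  · rw [sig_eq, sig_eq, vt_theta.one,
      show (π * (w + 1) ^ 2 / 2 : ℂ) = π * (w + 1 / 2) + π * w ^ 2 / 2 by ring, exp_add]
    ring
  · have e : cexp (π * (w + I) ^ 2 / 2) * cexp π * cexp (-(2 * π * I) * w) =
        cexp (-(π * I) * (w + I / 2)) * cexp (π * w ^ 2 / 2) := by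
      rw [← exp_add, ← exp_add, ← exp_add]
      congr 1
      linear_combination (π : ℂ) * I_mul_I
    rw [sig_eq, sig_eq, vt_theta.imag']
    linear_combination (-vt w) * e
  · have h3 : DifferentiableAt ℂ (fun w : ℂ => cexp (π * w ^ 2 / 2)) 0 := by fun_prop
    have h4 : deriv (fun w : ℂ => cexp (π * w ^ 2 / 2) * vt w) 0 = _ :=
      (h3.hasDerivAt.mul (hv 0).hasDerivAt).deriv
    rw [hf, h4, vt_zero, mul_zero, zero_add]
    exact mul_ne_zero (exp_ne_zero _) sig_der
  · rw [sig_eq, mul_eq_zero, or_iff_right (exp_ne_zero _)]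
    constructor
    · intro h
      have h1 : vt (w - round w.im * I) = 0 := by
        rw [← sig_I (round w.im), sub_add_cancel]
        exact h
      obtain ⟨m, hm⟩ := sig_strip (by simpa using abs_sub_round w.im) h1
      exact ⟨![m, round w.im], by simp [gi, ← hm]⟩
    · rintro ⟨n, rfl⟩
      rw [gi, sig_I, ← zero_add (n 0 : ℂ), ← mul_one (n 0 : ℂ), sig_one]
      exact vt_zero

end Pool.Agent.P.MP_a11f68_mp.R
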