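import Pool.Agent.P.MP_a11f68_mp.R.Iface

namespace Pool.Agent.P.MP_a11f68_mp.R

open Complex ComplexConjugate Metric Filter Topology Set Pool.Agent.P.MP_a11f68_mp.Q
open scoped Real

/-- Off the Fermi set the equation is solvable for every basis vector. -/
theorem sym_solve (T : H2 →L[ℂ] H2) {p : ℂ × ℂ} (hp : p ∉ opF T) (m : Fin 2 → ℤ) :
    ∃ x : H2, ∀ n, Dn n p * x n + T x n = if n = m then 1 else 0 := by
  classical
  set L : ℝ := ‖T‖ + 1 with hL
  have L1 : 1 ≤ L := by have := norm_nonneg T; linarith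
  have L0 : 0 < L := by linarith
  set G := (schur_fin (‖p.1‖ + ‖p.2‖ + L + ‖gi m‖)).toFinset with hG
  have hm : m ∈ G := by
    rw [hG, Finite.mem_toFinset]
    show ‖gi m‖ ≤ _
    linarith [norm_nonneg p.1, norm_nonneg p.2]
  have off : ∀ n ∉ G, L ≤ ‖Dn n p‖ := fun n hn => by
    have h : ‖p.1‖ + ‖p.2‖ + L + ‖gi m‖ < ‖gi n‖ := by simpa [hG] using hn
    have a1 := norm_sub_le (p.1 + gi n) p.1
    have a2 := norm_sub_le (p.2 + conj (gi n)) p.2
    rw [add_sub_cancel_left] at a1 a2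
    rw [RCLike.norm_conj] at a2
    have b1 : L ≤ ‖p.1 + gi n‖ := by linarith [norm_nonneg p.2, norm_nonneg (gi m)]
    have b2 : L ≤ ‖p.2 + conj (gi n)‖ := by linarith [norm_nonneg p.1, norm_nonneg (gi m)]
    rw [Dn, norm_mul]
    nlinarith
  have ne : ∀ n ∉ G, Dn n p ≠ 0 := fun n hn => norm_pos_iff.1 (L0.trans_le (off n hn))
  obtain ⟨R, nR, hR⟩ := schur_diag (fun n => if n ∈ G then 0 else (Dn n p)⁻¹)
    (inv_nonneg.2 L0.le) fun n => by
      split_ifs with hn
      · simpa using L0.le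
      · rw [norm_inv]
        exact inv_anti₀ L0 (off n hn)
  have up : IsUnit (1 + R * T) := by
    have h1 : ‖-(R * T)‖ < 1 := by
      rw [norm_neg]
      refine ((norm_mul_le _ _).trans (mul_le_mul_of_nonneg_right nR (norm_nonneg T))).trans_lt ?_
      rw [inv_mul_lt_iff₀ L0]
      linarith
    rw [← sub_neg_eq_add]
    exact (Units.oneSub _ h1).isUnit
  have Pv : ∀ (v : H2) n, (1 + R * T) v n = v n + R (T v) n := fun v n => rfl
  have h1 : ∀ v : H2, ∀ n ∈ G, (1 + R * T) v n = v n := fun v n hn => by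
    rw [Pv, hR, if_pos hn, zero_mul, add_zero]
  have h2 : ∀ v : H2, ∀ n ∉ G, (1 + R * T) v n = (Dn n p)⁻¹ * (Dn n p * v n + T v n) :=
    fun v n hn => by rw [Pv, hR, if_neg hn, mul_add, inv_mul_cancel_left₀ (ne n hn)]
  have hd := mt (schur_ker T _ up G p _ (fun n hn => inv_ne_zero (ne n hn)) h1 h2).2 hp
  generalize 1 + R * T = P at up h1 h2 hd
  have i2 : ∀ v, P (Ring.inverse P v) = v := fun v => by
    rw [← mul_apply_eq_comp, Ring.mul_inverse_cancel _ up]; rfl
  obtain ⟨c, hc⟩ := Matrix.mulVec_surjective_iff_isUnit.2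
    ((Matrix.isUnit_iff_isUnit_det _).2 (Ne.isUnit hd)) fun a => if a.1 = m then 1 else 0
  let u : H2 := ∑ b : G, c b • lp.single 2 b.1 1
  have ua : ∀ n, u n = ∑ b : G, if n = b.1 then c b else 0 := fun n => by
    simp only [u, lp.coeFn_sum, Finset.sum_apply, lp.coeFn_smul, Pi.smul_apply, lp.single_apply,
      Pi.single_apply, smul_eq_mul, mul_ite, mul_one, mul_zero]
  refine ⟨Ring.inverse P u, fun n => ?_⟩
  by_cases hn : n ∈ G
  · have e := congrFun hc ⟨n, hn⟩
    rw [← h1 _ n hn, i2, ua, Finset.sum_eq_single ⟨n, hn⟩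
      (fun b _ hb => if_neg fun e => hb (Subtype.ext e.symm)) (by simp), if_pos rfl, ← e]
    simp only [Matrix.mulVec, dotProduct, Matrix.of_apply, add_mul, Finset.sum_add_distrib,
      ite_mul, zero_mul, Finset.sum_ite_eq, Finset.mem_univ, if_true, u, map_sum, map_smul,
      lp.coeFn_sum, Finset.sum_apply, lp.coeFn_smul, Pi.smul_apply, smul_eq_mul]
    exact congrArg _ (Finset.sum_congr rfl fun _ _ => mul_comm _ _)
  · have e := h2 (Ring.inverse P u) n hn
    rw [i2, ua, Finset.sum_eq_zero fun b _ => if_neg fun e => hn (by rw [e]; exact b.2)] at e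
    rw [if_neg fun e => hn (by rw [e]; exact hm)]
    exact (mul_eq_zero.1 e.symm).resolve_left (inv_ne_zero (ne n hn))

theorem sym_Dn (n : Fin 2 → ℤ) (k : Fin 2 → ℂ) :
    Dn n ((-k) 0 + (-k) 1 * I, (-k) 0 - (-k) 1 * I) = Dn (-n) (k 0 + k 1 * I, k 0 - k 1 * I) := by
  rw [op_sum, op_sum]
  refine Finset.sum_congr rfl fun i _ => ?_
  simp only [Pi.neg_apply, Int.cast_neg]
  ring

open MeasureTheory UnitAddTorus in
open scoped ENNReal in
theorem p_SYM : S_SYM := by
  obtain ⟨-, -, -, -, -, -, hc, hv⟩ := p_LIFT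
  intro V lam hV
  obtain ⟨hP, R, hR, -⟩ := op_basis _ hv
  have cg : ∀ (f g : UnitAddTorus (Fin 2) → ℂ) (n : Fin 2 → ℤ), f =ᵐ[volume] g →
      mFourierCoeff f n = mFourierCoeff g n := fun f g n h => by
    rw [hc, hc]
    exact integral_congr_ae (h.mono fun x hx => by simp only [hx])
  have pair : ∀ f g : Lp ℂ 2 (volume : Measure (UnitAddTorus (Fin 2))),
      HasSum (fun n => R f (-n) * R g n) (∫ x, f x * g x) := fun f g => by
    have h1 := lp.hasSum_inner (𝕜 := ℂ) (R (star f)) (R g)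
    rw [R.inner_map_map, L2.inner_def] at h1
    have e1 : ∀ n, inner ℂ (R (star f) n) (R g n) = R f (-n) * R g n := fun n => by
      rw [RCLike.inner_apply', hR (star f), cg _ _ n (Lp.coeFn_star f), hR f, hc, hc,
        ← integral_conj]
      congr 2
      funext x
      simp [mFourier_neg]
    have e2 : ∫ x, inner ℂ (star f x) (g x) = ∫ x, f x * g x :=
      integral_congr_ae ((Lp.coeFn_star f).mono fun x hx => by simp [hx, mul_comm])
    simp only [e1] at h1
    exact e2 ▸ h1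
  let M := (ContinuousLinearMap.mul ℂ ℂ).holderL volume ∞ 2 2 (hV.toLp V)
  have hM : ∀ f, M f =ᵐ[volume] fun x => V x * f x := fun f => by
    filter_upwards [(ContinuousLinearMap.mul ℂ ℂ).coeFn_holder (r := 2) (hV.toLp V) f,
      hV.coeFn_toLp] with x h1 h2
    rw [← h2]
    exact h1
  let T : H2 →L[ℂ] H2 := (4 * π ^ 2 : ℂ)⁻¹ •
    ((R : _ →L[ℂ] H2) ∘L M ∘L (R.symm : H2 →L[ℂ] _) - lam • .id ℂ H2)
  have hT : ∀ f n, T (R f) n = (4 * π ^ 2 : ℂ)⁻¹ * (R (M f) n - lam * R f n) := fun f n => by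
    simp [T]
  have hπ : (4 * π ^ 2 : ℂ) ≠ 0 := by simp
  have key : ∀ (k : Fin 2 → ℂ) f n, Dn n (k 0 + k 1 * I, k 0 - k 1 * I) * R f n + T (R f) n = 0 ↔
      (4 * π ^ 2 * ∑ i, (k i + n i) ^ 2 - lam) * mFourierCoeff f n
        + mFourierCoeff (fun x => V x * f x) n = 0 := fun k f n => by
    rw [hT, hR (M f), cg _ _ n (hM f), op_sum, hR, ← mul_right_inj' hπ, mul_add,
      mul_inv_cancel_left₀ hπ, mul_zero]
    exact Eq.congr_left (by ring)
  rintro k ⟨v, h1, h2, h3⟩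
  by_cases hq : ((-k) 0 + (-k) 1 * I, (-k) 0 - (-k) 1 * I) ∈ opF T
  · obtain ⟨u, u1, u2⟩ := hq
    obtain ⟨f, rfl⟩ := R.surjective u
    exact ⟨f, Lp.memLp f, fun e => u1 (R.map_eq_zero_iff.2 (Lp.eq_zero_iff_ae_eq_zero.2 e)),
      fun n => (key (-k) f n).1 (u2 n)⟩
  refine absurd (h1.coeFn_toLp.symm.trans (Lp.eq_zero_iff_ae_eq_zero.1 (R.map_eq_zero_iff.1
    (lp.ext (funext fun m => ?_))))) h2
  have h4 : ∀ n, Dn n (k 0 + k 1 * I, k 0 - k 1 * I) * R (h1.toLp v) n +
      T (R (h1.toLp v)) n = 0 := fun n => (key k _ n).2 (by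
    rw [cg _ v n h1.coeFn_toLp, cg (fun x => V x * h1.toLp v x) (fun x => V x * v x) n
      (h1.coeFn_toLp.mono fun x hx => by simp only [hx])]
    exact h3 n)
  generalize h1.toLp v = f at h4 ⊢
  obtain ⟨x, hx⟩ := sym_solve T hq (-m)
  obtain ⟨g, rfl⟩ := R.surjective x
  have e : ∫ x, f x * M g x = ∫ x, M f x * g x := integral_congr_ae (by
    filter_upwards [hM f, hM g] with x a b
    rw [a, b]
    ring)
  have s1 := ((pair f (M g)).sub (pair (M f) g)).mul_left (4 * π ^ 2 : ℂ)⁻¹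
  rw [e, sub_self, mul_zero] at s1
  refine (hasSum_ite_eq (-m) (R f m)).unique ?_
  refine (funext fun n => ?_ : _ = fun n => if n = -m then R f m else 0) ▸ s1
  have a := hx n
  have b := h4 (-n)
  rw [sym_Dn, hT] at a
  rw [hT] at b
  have c : (if n = -m then R f m else 0) = R f (-n) * if n = -m then 1 else 0 := by
    split_ifs with h
    · rw [h, neg_neg, mul_one]
    · rw [mul_zero]
  rw [c, ← a]
  linear_combination (-R g n) * b

end Pool.Agent.P.MP_a11f68_mp.R
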