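import Pool.Agent.P.MP_a11f68_mp.R.Iface

namespace Pool.Agent.P.MP_a11f68_mp.R

open Complex ComplexConjugate Metric Filter Topology Set Pool.Agent.P.MP_a11f68_mp.Q
open scoped Real

lemma zset_half : (1 / 2 : ℂ) ∉ range gi := by
  rintro ⟨n, hn⟩
  have h1 := congrArg re hn
  have h2 : (2 : ℝ) * n 0 = 1 := by
    simp [gi] at h1
    rw [h1]
    norm_num
  have h3 : 2 * n 0 = 1 := by exact_mod_cast h2
  omega

lemma zset_bound {σ : ℂ} (hσ : σ ≠ 0) (d : ℕ) (a : ℕ → ℂ) :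
    ∃ ρ : ℝ, ∀ z, σ * z ^ d + ∑ j ∈ Finset.range d, a j * z ^ j = 0 → ‖z‖ ≤ ρ := by
  have hp : (Polynomial.C σ * Polynomial.X ^ d +
      ∑ j ∈ Finset.range d, Polynomial.C (a j) * Polynomial.X ^ j : Polynomial ℂ) ≠ 0 := by
    intro h
    have h1 := congrArg (fun p : Polynomial ℂ => p.coeff d) h
    simp only [Polynomial.coeff_add, Polynomial.finsetSum_coeff, Polynomial.coeff_C_mul,
      Polynomial.coeff_X_pow, Polynomial.coeff_zero, if_true, mul_one] at h1
    rw [Finset.sum_eq_zero fun j hj => by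
      rw [if_neg (Finset.mem_range.1 hj).ne', mul_zero], add_zero] at h1
    exact hσ h1
  obtain ⟨ρ, hρ⟩ := (Polynomial.finite_setOfPred_isRoot hp).isBounded.exists_norm_le
  refine ⟨ρ, fun z hz => hρ z ?_⟩
  simpa [Polynomial.eval_finsetSum] using hz

lemma zset_inv {H : Polynomial ℂ} (h : Law (cmEquation H)) : Q.Inv (Zs H) := by
  intro q hq n
  have h1 := aset_shift (P := fun w z => cmEquation H w z = 0) (a := 1) (b := 1)
    (fun w z => by simp [h.1]) (n 0)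
  have h2 := aset_shift (P := fun w z => cmEquation H w z = 0) (a := I) (b := -I)
    (fun w z => by simp [← sub_eq_add_neg, h.2]) (n 1)
  have h3 := (h2 _ _).2 ((h1 q.1 q.2).2 hq)
  show cmEquation H _ _ = 0
  rw [← h3]
  congr 1
  · rw [gi]
    ring
  · simp only [gi, map_add, map_mul, map_intCast, conj_I]
    ring

theorem p_ZSET (hSIG : S_SIG) (hCM : S_CM) (hNI : S_NI) : S_ZSET := by
  intro H hH
  obtain ⟨hs, -, -, -, hz⟩ := hSIG
  obtain ⟨hL, a, ha, he, -⟩ := hCM H hH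
  have hσ : sigmaG (1 / 2) ≠ 0 := fun h => zset_half ((hz _).1 h)
  have han : AnalyticOnNhd ℂ (fun q : ℂ × ℂ => sigmaG q.1 * q.2 ^ H.natDegree +
      ∑ j ∈ Finset.range H.natDegree, a j q.1 * q.2 ^ j) univ := fun q _ =>
    (((hs.analyticAt _).fun_comp analyticAt_fst).mul (analyticAt_snd.fun_pow _)).add
      (Finset.analyticAt_fun_sum _ fun j _ =>
        (((ha j).analyticAt _).fun_comp analyticAt_fst).mul (analyticAt_snd.fun_pow _))
  refine ⟨fun p => ⟨univ, isOpen_univ, mem_univ _, _, han, fun q _ => by rw [← he]; rfl⟩,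
    fun p => ⟨univ, isOpen_univ, mem_univ _, 1, fun _ => _, fun _ => han, fun q _ => by
      rw [forall_const, ← he]; rfl⟩, zset_inv hL, fun H' hH' hsub => ?_⟩
  obtain ⟨-, a', ha', he', -⟩ := hCM H' hH'
  obtain ⟨ρ, hρ⟩ := zset_bound hσ H.natDegree fun j => a j (1 / 2)
  have h0 : ∀ s, ∑ j ∈ Finset.range H'.natDegree, a' j s * (0 : ℂ) ^ (H'.natDegree - j) = 0 :=
    fun s => Finset.sum_eq_zero fun j hj => by
      rw [zero_pow (Nat.sub_ne_zero_of_lt (Finset.mem_range.1 hj)), mul_zero]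
  have h1 := hNI {q | sigmaG q.2 +
      ∑ j ∈ Finset.range H'.natDegree, a' j q.2 * q.1 ^ (H'.natDegree - j) = 0} 0 0
    (fun p => ⟨univ, isOpen_univ, mem_univ _, _, fun q _ =>
      ((hs.analyticAt _).fun_comp analyticAt_snd).add
        (Finset.analyticAt_fun_sum _ fun j _ =>
          (((ha' j).analyticAt _).fun_comp analyticAt_snd).mul (analyticAt_fst.fun_pow _)),
      fun q _ => Iff.rfl⟩)
    ⟨1 / 2, fun h => hσ (by simpa only [mem_ofPred_eq, h0, add_zero] using h)⟩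
    (by
      simp only [mem_ofPred_eq, h0, add_zero]
      exact (hz 0).2 ⟨0, by simp [gi]⟩) (1 / 2) (by norm_num)
  obtain ⟨ε, hε, h2⟩ := Metric.eventually_nhds_iff.1 h1
  obtain ⟨n, hn⟩ := exists_nat_gt (|ρ| + 1 + ε⁻¹)
  have hε' : 0 < ε⁻¹ := inv_pos.2 hε
  have hx : ‖(1 / 2 + n : ℂ)‖ = 1 / 2 + n := by
    rw [show (1 / 2 + n : ℂ) = ((1 / 2 + n : ℝ) : ℂ) by push_cast; ring, norm_real,
      Real.norm_of_nonneg (by positivity)]
  have hx0 : (1 / 2 + n : ℂ) ≠ 0 := by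
    rw [← norm_pos_iff, hx]
    positivity
  obtain ⟨s, hs1, hs2⟩ := h2 (y := (1 / 2 + n : ℂ)⁻¹) (by
    rw [dist_zero_right, norm_inv, hx]
    exact inv_lt_of_inv_lt₀ hε (by linarith [abs_nonneg ρ]))
  have h3 : ((1 / 2 + n : ℂ), s) ∈ Zs H := by
    refine hsub ?_
    show cmEquation H' s (1 / 2 + n) = 0
    have h4 := congrArg (fun t => t * (1 / 2 + n : ℂ) ^ H'.natDegree) hs2
    simp only [add_mul, zero_mul, Finset.sum_mul] at h4
    rw [he', ← h4]
    congr 1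
    refine Finset.sum_congr rfl fun j hj => ?_
    obtain ⟨k, hk⟩ := Nat.exists_eq_add_of_le (Finset.mem_range.1 hj).le
    rw [hk, Nat.add_sub_cancel_left, pow_add, inv_pow, mul_assoc, mul_left_comm _ (_ ^ j),
      inv_mul_cancel₀ (pow_ne_zero k hx0), mul_one]
  have h5 : ((1 / 2 : ℂ), s - n) ∈ Zs H := by
    refine ((zset_inv hL).iff _ _ ![n, 0]).1 ?_
    simpa [gi] using h3
  have h6 := hρ (s - n) (by rw [← he]; exact h5)
  have h7 : ‖(n : ℂ)‖ ≤ ‖s‖ + ‖s - n‖ := by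
    simpa using norm_sub_le s (s - n)
  rw [mem_ball_zero_iff] at hs1
  rw [Complex.norm_natCast] at h7
  linarith [le_abs_self ρ]

end Pool.Agent.P.MP_a11f68_mp.R
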