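import Pool.Agent.P.MP_a11f68_mp.R.Main
import Pool.Agent.P.MP_a11f68_mp.R.TSIG
import Pool.Agent.P.MP_a11f68_mp.R.TCM
import Pool.Agent.P.MP_a11f68_mp.R.TCLS
import Pool.Agent.P.MP_a11f68_mp.R.TFIBP
import Pool.Agent.P.MP_a11f68_mp.R.TNI
import Pool.Agent.P.MP_a11f68_mp.R.TID
import Pool.Agent.P.MP_a11f68_mp.R.TZSET
import Pool.Agent.P.MP_a11f68_mp.R.TODD
import Pool.Agent.P.MP_a11f68_mp.R.TSYM

namespace Pool.Agent.P.MP_a11f68_mp.R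

open Complex
open scoped Real

theorem reducible_curves (V : UnitAddTorus (Fin 2) → ℂ)
    (hV : MeasureTheory.MemLp V ⊤ MeasureTheory.volume) (lam : ℂ) :
    ¬ IrreducibleModPeriodicity (weakFermi V lam) ↔
      ∃ (d : ℕ) (H₁ H₂ : Polynomial ℂ), lam = (∫ x, V x) + 4 * π * d ∧
        (∀ H ∈ [H₁, H₂], H.Monic ∧ H.natDegree = d ∧ ∀ x, H.eval (-x) = (-1) ^ d * H.eval x) ∧
        weakFermi V lam = {k | cmEquation H₁ (k 0 + k 1 * I) (k 0 - k 1 * I) = 0 ∨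
          cmEquation H₂ (k 0 - k 1 * I) (k 0 + k 1 * I) = 0} :=
  have c := p_CM p_SIG
  curves p_SIG c (p_CLS p_SIG c) p_FIBP p_NI p_ID (p_ZSET p_SIG c p_NI) (p_ODD p_SIG c) p_SYM
    V hV lam

end Pool.Agent.P.MP_a11f68_mp.R
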