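import Pool.Agent.P.MP_a11f68_mp.R.Defs
import Pool.Agent.P.MP_a11f68_mp.Q.Final

/-! Interface of the project RC: the blocks. -/

namespace Pool.Agent.P.MP_a11f68_mp.R

open Complex ComplexConjugate Metric Filter Topology Set Pool.Agent.P.MP_a11f68_mp.Q
open scoped Real

/-- The transformation law of degree one. -/
def Law (Θ : ℂ → ℂ → ℂ) : Prop :=
  (∀ w z, Θ (w + 1) (z + 1) = -cexp (π * (w + 1 / 2)) * Θ w z) ∧
    ∀ w z, Θ (w + I) (z - I) = -cexp (-(π * I) * (w + I / 2)) * Θ w z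

/-- The curve attached to a polynomial. -/
def Zs (H : Polynomial ℂ) : Set (ℂ × ℂ) := {q | cmEquation H q.1 q.2 = 0}

/-- The sigma function. -/
def S_SIG : Prop :=
  Differentiable ℂ sigmaG ∧ (∀ w, sigmaG (w + 1) = -cexp (π * (w + 1 / 2)) * sigmaG w) ∧
    (∀ w, sigmaG (w + I) = -cexp (-(π * I) * (w + I / 2)) * sigmaG w) ∧ deriv sigmaG 0 ≠ 0 ∧
    ∀ w, sigmaG w = 0 ↔ w ∈ range gi

/-- The shape of the equation. -/
def S_CM : Prop :=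
  ∀ H : Polynomial ℂ, H.Monic → Law (cmEquation H) ∧ ∃ a : ℕ → ℂ → ℂ,
    (∀ j, Differentiable ℂ (a j)) ∧
    (∀ w z, cmEquation H w z =
      sigmaG w * z ^ H.natDegree + ∑ j ∈ Finset.range H.natDegree, a j w * z ^ j) ∧
    (0 < H.natDegree → a (H.natDegree - 1) 0 = -(H.natDegree / π) * deriv sigmaG 0)

/-- Classification of the polynomials with the law. -/
def S_CLS : Prop :=
  ∀ (d : ℕ) (a : ℕ → ℂ → ℂ), (∀ j, Differentiable ℂ (a j)) →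
    Law (fun w z => sigmaG w * z ^ d + ∑ j ∈ Finset.range d, a j w * z ^ j) →
    ∃ H : Polynomial ℂ, H.Monic ∧ H.natDegree = d ∧
      ∀ w z, cmEquation H w z = sigmaG w * z ^ d + ∑ j ∈ Finset.range d, a j w * z ^ j

/-- The fibre polynomial of a proper part of `F \ B` over a connected base. -/
def S_FIBP : Prop :=
  ∀ (F B : Set (ℂ × ℂ)) (O Ω : Set ℂ), Hyp F → An B → IsOpen O → IsOpen Ω → IsPreconnected Ω →
    (∀ s ∈ Ω, ∃ t, (s, t) ∉ F) →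
    (∀ s₀ ∈ Ω, ∃ K, IsCompact K ∧ K ⊆ O ∧ ∀ᶠ s in 𝓝 s₀, fib F B O s ⊆ K) →
    ∃ (d : ℕ) (b : ℕ → ℂ → ℂ) (E : Set ℂ), E.Countable ∧ (∀ j, DifferentiableOn ℂ (b j) Ω) ∧
      ∀ s ∈ Ω, (fib F B O s).Finite ∧ (fib F B O s).ncard ≤ d ∧
        (s ∉ E → (fib F B O s).ncard = d) ∧
        ((fib F B O s).ncard = d → ∀ z, ∏ᶠ t ∈ fib F B O s, (z - t) =
          z ^ d + ∑ j ∈ Finset.range d, b j s * z ^ j)

/-- A point of a curve persists in the nearby fibres. -/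
def S_NI : Prop :=
  ∀ (G : Set (ℂ × ℂ)) (w₀ z₀ : ℂ), Hyp G → (∃ t, (w₀, t) ∉ G) → (w₀, z₀) ∈ G →
    ∀ r : ℝ, 0 < r → ∀ᶠ w in 𝓝 w₀, ∃ t ∈ ball z₀ r, (w, t) ∈ G

/-- Analytic sets are closed, and the identity theorem on a line. -/
def S_ID : Prop :=
  ∀ B : Set (ℂ × ℂ), An B → IsClosed B ∧
    ∀ w : ℂ, ¬ {t | (w, t) ∈ B}.Countable → ∀ t, (w, t) ∈ B

/-- Geometry of the curves. -/
def S_ZSET : Prop :=
  ∀ H : Polynomial ℂ, H.Monic → Hyp (Zs H) ∧ An (Zs H) ∧ Inv (Zs H) ∧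
    ∀ H' : Polynomial ℂ, H'.Monic → ¬ Prod.swap ⁻¹' Zs H' ⊆ Zs H

/-- The Fermi variety is symmetric. -/
def S_SYM : Prop :=
  ∀ (V : UnitAddTorus (Fin 2) → ℂ) (lam : ℂ), MeasureTheory.MemLp V ⊤ MeasureTheory.volume →
    ∀ k ∈ weakFermi V lam, -k ∈ weakFermi V lam

/-- A symmetric reduced curve has a polynomial with parity. -/
def S_ODD : Prop :=
  ∀ (H : Polynomial ℂ) (E : Set ℂ), H.Monic → E.Countable →
    (∀ w ∉ E, {z | (w, z) ∈ Zs H}.ncard = H.natDegree ∧ ∀ z, (w, z) ∈ Zs H → (-w, -z) ∈ Zs H) →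
    ∀ x, H.eval (-x) = (-1) ^ H.natDegree * H.eval x

end Pool.Agent.P.MP_a11f68_mp.R
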