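import Pool.Agent.P.MP_a11f68_mp.R.Mid

/-! The two components. -/

namespace Pool.Agent.P.MP_a11f68_mp.R

open Complex ComplexConjugate Metric Filter Topology Set Pool.Agent.P.MP_a11f68_mp.Q
open scoped Real

variable {F B : Set (ℂ × ℂ)} {c : ℂ} {N : ℕ} {C : ℝ}

/-- The asymptotics of the curve determine the degree. -/
lemma deg_eq (hS : S_SIG) (hM : S_CM) {H : Polynomial ℂ} (hH : H.Monic) (hc : c ≠ 0) {l : Filter ℂ}
    [l.NeBot] {G : ℂ → ℂ} (h1 : Tendsto (fun z : ℂ => ‖z‖) l atTop)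
    (h2 : Tendsto (fun z => z * G z) l (𝓝 c)) (h3 : ∀ᶠ z in l, (G z, z) ∈ Zs H) :
    c = H.natDegree / π := by
  obtain ⟨-, a, a1, a2, a3⟩ := hM H hH
  have s0 : sigmaG 0 = 0 := (hS.2.2.2.2 0).2 ⟨0, gi_zero⟩
  have t1 : Tendsto (fun z : ℂ => z⁻¹) l (𝓝 0) := by
    rw [tendsto_zero_iff_norm_tendsto_zero]
    simp only [norm_inv]
    exact tendsto_inv_atTop_zero.comp h1
  have hz : ∀ᶠ z in l, z ≠ 0 := (h1.eventually_gt_atTop 0).mono fun z h => norm_pos_iff.1 h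
  have t2 : Tendsto G l (𝓝 0) := by
    have := t1.mul h2
    rw [zero_mul] at this
    exact this.congr' (hz.mono fun z h => inv_mul_cancel_left₀ h _)
  have t3 : Tendsto (fun z => sigmaG (G z) * z) l (𝓝 (deriv sigmaG 0 * c)) := by
    have := ((continuousAt_dslope_same.2 (hS.1 0)).tendsto.comp t2).mul h2
    rw [dslope_same] at this
    refine this.congr fun z => ?_
    have e := sub_smul_dslope sigmaG 0 (G z)
    rw [s0, sub_zero, sub_zero, smul_eq_mul] at e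
    rw [← e, Function.comp]
    ring
  rcases Nat.eq_zero_or_pos H.natDegree with h0 | h0
  · refine absurd (tendsto_nhds_unique t3 (tendsto_const_nhds.congr' (h3.mono fun z h => ?_)))
      (mul_ne_zero hS.2.2.2.1 hc)
    have := (a2 _ _).symm.trans h
    simp only [h0, pow_zero, mul_one, Finset.range_zero, Finset.sum_empty, add_zero] at this
    simp only [this, zero_mul]
  have a4 := a3 h0
  obtain ⟨e, he⟩ := Nat.exists_eq_add_of_le' h0
  have t4 := t3.add (tendsto_finsetSum (Finset.range (e + 1)) fun j _ =>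
    (((a1 j).continuous.tendsto 0).comp t2).mul (t1.pow (e - j)))
  have t5 := tendsto_nhds_unique t4 ((tendsto_const_nhds (x := 0)).congr' (by
    filter_upwards [h3, hz] with z h k
    have := (a2 _ _).symm.trans h
    rw [he] at this
    refine mul_left_cancel₀ (pow_ne_zero e k) ?_
    rw [mul_zero, ← this, mul_add, Finset.mul_sum]
    congr 1
    · ring
    refine Finset.sum_congr rfl fun j hj => ?_
    obtain ⟨i, rfl⟩ := Nat.exists_eq_add_of_le (Nat.lt_succ_iff.1 (Finset.mem_range.1 hj))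
    simp only [Function.comp, Nat.add_sub_cancel_left, inv_pow]
    field_simp
    ring))
  rw [Finset.sum_range_succ, Finset.sum_eq_zero fun j hj => by
    rw [zero_pow (Nat.sub_ne_zero_of_lt (Finset.mem_range.1 hj)), mul_zero]] at t5
  rw [show H.natDegree - 1 = e by omega] at a4
  rw [a4, Nat.sub_self, pow_zero] at t5
  exact mul_left_cancel₀ hS.2.2.2.1 (by linear_combination t5)

lemma no_line (hS : S_SIG) (hM : S_CM) (hZ : S_ZSET) {H : Polynomial ℂ} (hH : H.Monic)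
    (h0 : 0 < H.natDegree) (w : ℂ) : ∃ t, (w, t) ∉ Zs H := by
  obtain ⟨-, a, -, a2, a3⟩ := hM H hH
  by_contra k
  push Not at k
  by_cases hw : w ∈ range gi
  · obtain ⟨n, rfl⟩ := hw
    obtain ⟨u, hu⟩ := coef_val H.natDegree (H.natDegree - 1) (by omega)
    have := hu fun j => a j 0
    rw [a3 h0, Finset.sum_eq_zero fun i _ => ?_] at this
    · exact mul_ne_zero (neg_ne_zero.2 (div_ne_zero (Nat.cast_ne_zero.2 h0.ne')
        (ofReal_ne_zero.2 Real.pi_ne_zero))) hS.2.2.2.1 this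
    have e := (a2 _ _).symm.trans (((hZ H hH).2.2.1.iff 0 (i : ℂ) n).1 (by
      rw [zero_add]; exact k _))
    rw [(hS.2.2.2.2 0).2 ⟨0, gi_zero⟩, zero_mul, zero_add] at e
    rw [e, mul_zero]
  · obtain ⟨u, hu⟩ := coef_val (H.natDegree + 1) H.natDegree (by omega)
    have := hu fun j => if j = H.natDegree then sigmaG w else a j w
    rw [if_pos rfl, Finset.sum_eq_zero fun i _ => ?_] at this
    · exact hw ((hS.2.2.2.2 w).1 this)
    rw [Finset.sum_range_succ, if_pos rfl, Finset.sum_congr rfl fun j hj => by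
      rw [if_neg (Finset.mem_range.1 hj).ne], add_comm, ← a2, show cmEquation H w _ = 0 from k _,
      mul_zero]

theorem mainp (hS : S_SIG) (hM : S_CM) (hC : S_CLS) (hP : S_FIBP) (hNI : S_NI) (hID : S_ID)
    (hZ : S_ZSET) (D : Data F c N C) (hB : An B) (hI : Q.Inv B) (hend : endSet F N ⊆ B) :
    F ⊆ B ∨ (¬ endSet (Prod.swap ⁻¹' F) N ⊆ Prod.swap ⁻¹' B ∧ ∃ H : Polynomial ℂ, H.Monic ∧
      c = H.natDegree / π ∧ Zs H ⊆ F ∧ F ⊆ B ∪ Zs H ∧ ∃ E : Set ℂ, E.Countable ∧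
        ∀ w ∉ E, {z | (w, z) ∈ Zs H}.ncard = H.natDegree ∧
          ∀ z, (w, z) ∈ Zs H ↔ (w, z) ∈ F ∧ (w, z) ∉ B) := by
  have hfar : ∀ z : ℂ, 2 * ((2 * N + 2 : ℕ) : ℝ) < ‖z‖ → z ∈ Far (2 * N + 2) := fun z hz => by
    by_contra h
    linarith [not_Far h]
  rcases far hNI hID D hB hI hend with h | ⟨G, E, hE, g0, g1, g2, g3⟩
  · left
    have k : ∀ w ∉ range gi, ∀ z, (w, z) ∈ F → (w, z) ∈ B := fun w hw z =>
      zero_deg D hB hI hend (fun ε _ => ⟨_, fun w z a b => (h z (hfar z b) w a).elim⟩) hw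
    rintro ⟨w, z⟩ hq
    by_contra hq'
    by_cases l : ∃ t, (w, t) ∉ F
    · exact of_generic hNI D.hyp (hID _ hB).1 isClosed_empty (countable_range gi)
        (fun s hs t a b => b (k s hs t a)) l hq hq'
    push Not at l
    have hw : w ∈ range gi := by
      by_contra e
      exact hq' (k w e z hq)
    refine hq' (vert hID hB hI countable_empty (M := 2 * N + 2) (fun s hs _ => ?_) hw z)
    by_contra e
    obtain ⟨n, rfl⟩ := hw
    exact h s hs.2 0 ⟨by simp, (D.inv.iff 0 s n).1 (by rw [zero_add]; exact l _), e⟩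
  have hNM : Far (2 * N + 2) ⊆ Far N := Far_mono (by omega)
  refine Or.inr ⟨fun hsub => ?_, ?_⟩
  · obtain ⟨z, hz, hzE, -⟩ := exists_far hE (2 * N + 2) 0
    obtain ⟨h1, h2, h3⟩ := g3 z hz.2 hzE
    exact h3 (hsub (show (z, G z) ∈ endSet (Prod.swap ⁻¹' F) N from ⟨h2, ⟨hz.1, hNM hz.2⟩, h1⟩))
  have q1 : ∀ ε : ℝ, 0 < ε → ∀ R' : ℝ, ∃ z, R' < ‖z‖ ∧ ‖z * G z - c‖ < ε := fun ε hε R' => by
    obtain ⟨z, hz, hzE, hR⟩ := exists_far hE (2 * N + 2) (max R' (|C| / ε))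
    obtain ⟨h1, h2, -⟩ := g3 z hz.2 hzE
    refine ⟨z, (le_max_left _ _).trans_lt hR, (D.e2.asym z ⟨hz.1, hNM hz.2⟩ _ h1 h2).trans_lt ?_⟩
    have h3 := (le_max_right _ _).trans_lt hR
    have h4 : 0 < ‖z‖ := lt_of_le_of_lt (by positivity) h3
    rw [div_lt_iff₀ hε] at h3
    rw [div_lt_iff₀ h4]
    linarith [le_abs_self C]
  have q0 : (0 : ℝ) < 2 * ((2 * N + 2 : ℕ) : ℝ) := by positivity
  have q2 := fun ε (hε : 0 < ε) => psi0 q0 (g0.mono hfar) (fun z hz => g1 z (hfar z hz)) q1 hε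
  have q3 : ∀ ε : ℝ, 0 < ε → ∃ R : ℝ, ∀ w z, Yp F B z w → R < ‖z‖ → ‖w * z‖ ≤ ‖c‖ + ε :=
    fun ε hε => by
      obtain ⟨R, hR⟩ := q2 ε hε
      refine ⟨max R (2 * ((2 * N + 2 : ℕ) : ℝ)), fun w z a b => ?_⟩
      rw [← g2 z (hfar z ((le_max_right _ _).trans_lt b)) w a, mul_comm]
      linarith [hR z ((le_max_left _ _).trans_lt b), norm_sub_norm_le (z * G z) c]
  by_cases hc : c = 0
  · subst hc
    have k : ∀ w ∉ range gi, ∀ z, (w, z) ∈ F → (w, z) ∈ B := fun w hw z =>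
      zero_deg D hB hI hend (by simpa using q3) hw
    have e : ∀ q, q ∈ Zs 1 ↔ q.1 ∈ range gi := fun q => by
      obtain ⟨-, a, -, a2, -⟩ := hM 1 Polynomial.monic_one
      rw [← hS.2.2.2.2, Zs, mem_ofPred_eq, a2]
      simp
    refine ⟨1, Polynomial.monic_one, by simp, fun q hq => ?_, fun q hq => ?_, _,
      countable_range gi, fun w hw => ⟨by simp [e, hw], fun z =>
        ⟨fun a => (hw ((e _).1 a)).elim, fun a => (a.2 (k w hw z a.1)).elim⟩⟩⟩
    · refine vert hID (hyp_an D.hyp) D.inv hE (M := 2 * N + 2) (fun s hs hsE => ?_) ((e q).1 hq) _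
      obtain ⟨h1, h2, h3⟩ := g3 s hs.2 hsE
      rwa [gi_small (not_not.1 fun a => h3 (k _ a s h2)) h1] at h2
    · exact or_iff_not_imp_right.2 fun a => k _ (mt (e q).2 a) _ hq
  obtain ⟨-, R₂, hR₂, p2⟩ := p_PSI G c _ hc q0 (g0.mono hfar) (fun z hz => g1 z (hfar z hz)) q1
  obtain ⟨R, hR⟩ := q3 1 one_pos
  have A1 := le_max_left (‖c‖ + 1) (max R R₂)
  have A2 := (le_max_left _ _).trans (le_max_right (‖c‖ + 1) (max R R₂))
  have A3 := (le_max_right _ _).trans (le_max_right (‖c‖ + 1) (max R R₂))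
  obtain ⟨H, E', m1, hE', m2⟩ := theta hS hC hP D hB hI hend (A := max (‖c‖ + 1) (max R R₂))
    (by linarith [norm_nonneg c]) (fun w z a b => (hR w z a (A2.trans_lt b)).trans A1)
    ((p2 1 one_pos).mono fun w ⟨z₀, _, _, _, u⟩ z z' a a' b b' =>
      (u z (A3.trans_lt b) (g2 z (hfar z (by linarith)) w a)).trans
        (u z' (A3.trans_lt b') (g2 z' (hfar z' (by linarith)) w a')).symm)
  have f1 : ∀ q ∈ F, q ∉ B → q ∈ Zs H := fun q a b =>
    of_generic hNI D.hyp (hID _ hB).1 (hID _ (hZ H m1).2.1).1 hE'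
      (fun s hs t a b => ((m2 s hs).2 t).2 ⟨a, b⟩) (D.swap.line hc _) a b
  have : (comap (fun z : ℂ => ‖z‖) atTop ⊓ 𝓟 Eᶜ).NeBot := inf_principal_neBot_iff.2 fun U hU => by
    obtain ⟨t, ht, hU⟩ := mem_comap.1 hU
    obtain ⟨r, hr⟩ := mem_atTop_sets.1 ht
    obtain ⟨z, -, a, b⟩ := exists_far hE 0 r
    exact ⟨z, hU (hr _ b.le), a⟩
  have t1 : Tendsto (fun z : ℂ => ‖z‖) (comap (fun z : ℂ => ‖z‖) atTop ⊓ 𝓟 Eᶜ) atTop :=
    tendsto_comap.mono_left inf_le_left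
  have hd := deg_eq hS hM m1 hc t1 (G := G) (Metric.tendsto_nhds.2 fun ε hε => by
      obtain ⟨R, hR⟩ := q2 _ (half_pos hε)
      filter_upwards [t1.eventually_gt_atTop R] with z hz
      exact ((dist_eq_norm _ _).trans_le (hR z hz)).trans_lt (half_lt_self hε)) (by
      filter_upwards [t1.eventually_gt_atTop _, mem_inf_of_right (mem_principal_self Eᶜ)]
        with z a b
      exact f1 _ (g3 z (hfar z a) b).2.1 (g3 z (hfar z a) b).2.2)
  refine ⟨H, m1, hd, fun q hq => ?_, fun q hq => or_iff_not_imp_left.2 (f1 q hq), E', hE', m2⟩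
  exact of_generic hNI (hZ H m1).1 isClosed_empty (hID _ (hyp_an D.hyp)).1 hE'
    (fun s hs t a _ => (((m2 s hs).2 t).1 a).1) (no_line hS hM hZ m1 (Nat.pos_of_ne_zero fun e =>
      hc (by rw [hd, e]; simp)) _) hq id

lemma endsplit (D : Data F c N C) {X Y : Set (ℂ × ℂ)} (hX : An X) (hY : An Y) (h : F ⊆ X ∪ Y) :
    endSet F N ⊆ X ∨ endSet F N ⊆ Y := by
  have hD := p_DICH (p_FIB (p_LOC p_ARG p_PAR) p_HANK) p_PERF
  refine (hD F _ _ N C D.hyp D.e1 hX).imp_right fun ⟨E, hE, ha⟩ =>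
    (hD F _ _ N C D.hyp D.e1 hY).resolve_right fun ⟨E', hE', hb⟩ => ?_
  obtain ⟨s, hs, hsE, -⟩ := exists_far (hE.union hE') N 0
  obtain ⟨t, t1, t2, t3⟩ := ha s hs fun h => hsE (Or.inl h)
  obtain ⟨t', t1', t2', t3'⟩ := hb s hs fun h => hsE (Or.inr h)
  obtain rfl := D.e1.uniq s hs t t' t1 t1' t2 t2'
  exact (h t2).elim t3 t3'

lemma an_sym {X : Set (ℂ × ℂ)} (h : An X) : An (X ∩ Neg.neg ⁻¹' X) := fun p => by
  obtain ⟨U, h1, h2, m, f, h3, h4⟩ := h p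
  obtain ⟨U', h1', h2', m', f', h3', h4'⟩ := h (-p)
  refine ⟨U ∩ Neg.neg ⁻¹' U', h1.inter (h1'.preimage continuous_neg), ⟨h2, h2'⟩, m + m',
    Fin.addCases f fun j q => f' j (-q), fun j => ?_, fun q hq => ?_⟩
  · refine Fin.addCases (fun j q hq => ?_) (fun j q hq => ?_) j
    · simp only [Fin.addCases_left]
      exact h3 j q hq.1
    · simp only [Fin.addCases_right]
      exact (h3' j _ hq.2).comp (f := fun q : ℂ × ℂ => -q) analyticAt_id.neg
  · rw [mem_inter_iff, mem_preimage, h4 q hq.1, h4' _ hq.2, Fin.forall_fin_add]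
    simp only [Fin.addCases_left, Fin.addCases_right]

lemma inv_sym {X : Set (ℂ × ℂ)} (h : Q.Inv X) : Q.Inv (X ∩ Neg.neg ⁻¹' X) := fun q hq n =>
  ⟨h q hq.1 n, by
    have := h _ hq.2 (-n)
    rw [gi_neg, map_neg] at this
    rw [mem_preimage, Prod.neg_mk, neg_add, neg_add]
    exact this⟩

lemma end_sym (hs : ∀ q ∈ F, -q ∈ F) {X : Set (ℂ × ℂ)} (h : endSet F N ⊆ X) :
    endSet F N ⊆ X ∩ Neg.neg ⁻¹' X := fun q hq => by
  refine ⟨h hq, h ⟨hs q hq.1, ⟨?_, ?_⟩, by simpa using hq.2.2⟩⟩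
  · obtain ⟨j, a | a⟩ := hq.2.1.1
    · exact ⟨-j - 1, Or.inl (by
        simp only [Prod.fst_neg, neg_re]; push_cast; constructor <;> linarith [a.1, a.2])⟩
    · exact ⟨-j - 1, Or.inr (by
        simp only [Prod.fst_neg, neg_im]; push_cast; constructor <;> linarith [a.1, a.2])⟩
  · simpa [Far] using hq.2.1.2

theorem half (hS : S_SIG) (hM : S_CM) (hC : S_CLS) (hP : S_FIBP) (hNI : S_NI) (hID : S_ID)
    (hZ : S_ZSET) (hO : S_ODD) (D : Data F c N C) (hs : ∀ q ∈ F, -q ∈ F) (hB : An B)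
    (hI : Q.Inv B) (hend : endSet F N ⊆ B) (n : ¬ F ⊆ B) :
    ¬ endSet (Prod.swap ⁻¹' F) N ⊆ Prod.swap ⁻¹' B ∧ ∃ H : Polynomial ℂ, H.Monic ∧
      c = H.natDegree / π ∧ (∀ x, H.eval (-x) = (-1) ^ H.natDegree * H.eval x) ∧ Zs H ⊆ F ∧
      F ⊆ B ∪ Zs H := by
  obtain ⟨n1, H, m1, c1, a1, b1, E, hE, e1⟩ := (mainp hS hM hC hP hNI hID hZ D (an_sym hB)
    (inv_sym hI) (end_sym hs hend)).resolve_left fun k => n (k.trans inter_subset_left)
  refine ⟨fun k => n1 (end_sym (F := Prod.swap ⁻¹' F) (fun q hq => hs q.swap hq) k), H, m1, c1,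
    hO H (E ∪ Neg.neg ⁻¹' E) m1 (hE.union (hE.preimage neg_injective)) fun w hw =>
      ⟨(e1 w fun e => hw (Or.inl e)).1, fun z hz => ?_⟩, a1,
    b1.trans (union_subset_union_left _ inter_subset_left)⟩
  obtain ⟨k1, k2⟩ := ((e1 w fun e => hw (Or.inl e)).2 z).1 hz
  refine ((e1 (-w) fun e => hw (Or.inr e)).2 (-z)).2 ⟨hs _ k1, fun k => k2 ⟨?_, k.1⟩⟩
  simpa using k.2

theorem split (hS : S_SIG) (hM : S_CM) (hC : S_CLS) (hP : S_FIBP) (hNI : S_NI) (hID : S_ID)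
    (hZ : S_ZSET) (hO : S_ODD) (D : Data F c N C) (hs : ∀ q ∈ F, -q ∈ F) {X Y : Set (ℂ × ℂ)}
    (hX : An X) (hY : An Y) (iX : Q.Inv X) (iY : Q.Inv Y) (h : F ⊆ X ∪ Y) (nX : ¬ F ⊆ X)
    (nY : ¬ F ⊆ Y) :
    ∃ H₁ H₂ : Polynomial ℂ, H₁.Monic ∧ H₂.Monic ∧ c = H₁.natDegree / π ∧ c = H₂.natDegree / π ∧
      (∀ x, H₁.eval (-x) = (-1) ^ H₁.natDegree * H₁.eval x) ∧
      (∀ x, H₂.eval (-x) = (-1) ^ H₂.natDegree * H₂.eval x) ∧
      F = Zs H₁ ∪ Prod.swap ⁻¹' Zs H₂ := by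
  wlog e : endSet F N ⊆ X generalizing X Y
  · exact this hY hX iY iX (union_comm X Y ▸ h) nY nX ((endsplit D hX hY h).resolve_left e)
  obtain ⟨n1, H₁, m1, c1, o1, a1, b1⟩ := half hS hM hC hP hNI hID hZ hO D hs hX iX e nX
  have e2 := (endsplit D.swap hX.swap hY.swap fun q hq => h hq).resolve_left n1
  obtain ⟨n2, H₂, m2, c2, o2, a2, b2⟩ := half hS hM hC hP hNI hID hZ hO D.swap
    (fun q hq => hs q.swap hq) hY.swap iY.swap e2 fun k => nY fun q hq => k (a := q.swap) hq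
  obtain ⟨-, z1, i1, -⟩ := hZ H₁ m1
  obtain ⟨-, z2, i2, -⟩ := hZ H₂ m2
  have e3 := (endsplit D.swap hX.swap z1.swap fun q hq => b1 hq).resolve_left n1
  have e4 := (endsplit D hY z2.swap fun q hq => b2 (a := q.swap) hq).resolve_left n2
  refine ⟨H₁, H₂, m1, m2, c1, c2, o1, o2, Subset.antisymm ?_
    (union_subset a1 fun q hq => a2 (a := q.swap) hq)⟩
  exact (mainp hS hM hC hP hNI hID hZ D (z1.union z2.swap) (i1.union i2.swap)
    (e4.trans subset_union_right)).resolve_right fun k => k.1 fun q hq => Or.inl (e3 hq)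

theorem curves (hS : S_SIG) (hM : S_CM) (hC : S_CLS) (hP : S_FIBP) (hNI : S_NI) (hID : S_ID)
    (hZ : S_ZSET) (hO : S_ODD) (hY : S_SYM) (V : UnitAddTorus (Fin 2) → ℂ)
    (hV : MeasureTheory.MemLp V ⊤ MeasureTheory.volume) (lam : ℂ) :
    ¬ IrreducibleModPeriodicity (weakFermi V lam) ↔
      ∃ (d : ℕ) (H₁ H₂ : Polynomial ℂ), lam = (∫ x, V x) + 4 * π * d ∧
        (∀ H ∈ [H₁, H₂], H.Monic ∧ H.natDegree = d ∧ ∀ x, H.eval (-x) = (-1) ^ d * H.eval x) ∧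
        weakFermi V lam = {k | cmEquation H₁ (k 0 + k 1 * I) (k 0 - k 1 * I) = 0 ∨
          cmEquation H₂ (k 0 - k 1 * I) (k 0 + k 1 * I) = 0} := by
  have sur : Function.Surjective cφ := fun q => ⟨cψ q, cφ_cψ q⟩
  constructor
  · intro h
    obtain ⟨F, N, C, D, hF⟩ := exists_data (p_OP p_LIFT) p_SCHUR p_EST hV lam
    obtain ⟨A, B, a1, b1, a2, b2, a3, b3, hu⟩ := not_not.1 h
    have n : ∀ A ⊂ weakFermi V lam, ¬ F ⊆ cψ ⁻¹' A := fun A a k => a.2 fun x hx => by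
      rw [hF] at hx
      have := k hx
      rwa [mem_preimage, cψ_cφ] at this
    obtain ⟨H₁, H₂, m1, m2, c1, c2, o1, o2, e⟩ := split hS hM hC hP hNI hID hZ hO D (fun q hq => by
        obtain ⟨k, rfl⟩ := sur q
        have := hY V lam hV k (hF ▸ hq)
        rw [hF, mem_preimage] at this
        convert this using 1
        ext <;> simp [cφ] <;> ring)
      (an_of a1) (an_of b1) (inv_of a2) (inv_of b2) (fun q hq => by
        change cψ q ∈ A ∪ B
        rwa [hu, hF, mem_preimage, cφ_cψ]) (n A a3) (n B b3)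
    have hπ : (π : ℂ) ≠ 0 := ofReal_ne_zero.2 Real.pi_ne_zero
    have e2 : H₂.natDegree = H₁.natDegree := by
      exact_mod_cast (div_left_inj' hπ).1 (c2.symm.trans c1)
    refine ⟨H₁.natDegree, H₁, H₂, ?_, by simpa using ⟨⟨m1, o1⟩, m2, e2, e2 ▸ o2⟩, by
      rw [hF, e]; rfl⟩
    field_simp at c1
    linear_combination c1
  · rintro ⟨d, H₁, H₂, -, h, e⟩
    have m1 := (h H₁ (by simp)).1
    have m2 := (h H₂ (by simp)).1
    obtain ⟨-, z1, i1, n1⟩ := hZ H₁ m1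
    obtain ⟨-, z2, i2, n2⟩ := hZ H₂ m2
    have e' : weakFermi V lam = cφ ⁻¹' Zs H₁ ∪ cφ ⁻¹' (Prod.swap ⁻¹' Zs H₂) := e
    refine not_not.2 ⟨_, _, z1.to, z2.swap.to, i1.to, i2.swap.to, ?_, ?_, e'.symm⟩ <;> rw [e']
    · exact ⟨subset_union_left, fun k =>
        n1 H₂ m2 (sur.preimage_subset_preimage_iff.1 (subset_union_right.trans k))⟩
    · refine ⟨subset_union_right, fun k => n2 H₁ m1 fun q hq => ?_⟩
      have a : Zs H₁ ⊆ Prod.swap ⁻¹' Zs H₂ :=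
        sur.preimage_subset_preimage_iff.1 (subset_union_left.trans k)
      have b : q.swap.swap ∈ Zs H₂ := a (show q.swap ∈ Zs H₁ from hq)
      rwa [Prod.swap_swap] at b

end Pool.Agent.P.MP_a11f68_mp.R
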