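import Pool.Agent.P.MP_a11f68_mp.R.Base

/-! Fibres over the first coordinate. -/

namespace Pool.Agent.P.MP_a11f68_mp.R

open Complex ComplexConjugate Metric Filter Topology Set Pool.Agent.P.MP_a11f68_mp.Q
open scoped Real

variable {F B : Set (ℂ × ℂ)} {c : ℂ} {N : ℕ} {C : ℝ}

lemma conn_gi : IsPreconnected (range gi)ᶜ :=
  ((countable_range gi).isPathConnected_compl_of_one_lt_rank
    (by rw [Complex.rank_real_complex]; norm_num)).isConnected.isPreconnected

/-- Off the lattice the fibres of `F \ B` are locally bounded. -/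
lemma locb (D : Data F c N C) (hI : Q.Inv B) (hend : endSet F N ⊆ B) {R A : ℝ}
    (hK : ∀ w z, Yp F B z w → R < ‖z‖ → ‖w * z‖ ≤ A) {w₀ : ℂ} (hw₀ : w₀ ∈ (range gi)ᶜ) :
    ∃ K, IsCompact K ∧ K ⊆ univ ∧ ∀ᶠ w in 𝓝 w₀, fib F B univ w ⊆ K := by
  obtain ⟨δ, hδ, hsub⟩ := Metric.isOpen_iff.1 isClosed_gi.isOpen_compl w₀ hw₀
  refine ⟨closedBall 0 (‖w₀‖ + δ + max (2 * (N : ℝ) + 1) (max R (A / (δ / 2)) + 1)),
    isCompact_closedBall _ _, subset_univ _, ?_⟩
  filter_upwards [ball_mem_nhds w₀ (half_pos hδ)] with w hw z hz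
  have h0 := norm_sub_norm_le w w₀
  rw [mem_ball, dist_eq_norm] at hw
  have : ‖w - conj z‖ ≤ max (2 * (N : ℝ) + 1) (max R (A / (δ / 2)) + 1) := by
    by_cases hp : w ∈ Perf
    · exact (main_perf D hI hend hz.2.1 hz.2.2 hp).trans (le_max_left _ _)
    obtain ⟨n, hn⟩ := not_Perf hp
    refine le_trans ?_ (le_max_right _ _)
    have h2 : δ / 2 ≤ ‖w + gi n‖ := by
      by_contra h4
      refine hsub (a := gi (-n)) ?_ ⟨-n, rfl⟩
      rw [mem_ball, dist_eq_norm, gi_neg, show -gi n - w₀ = (w - w₀) - (w + gi n) by ring]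
      linarith [norm_sub_le (w - w₀) (w + gi n)]
    have h3 : ‖z + conj (gi n)‖ ≤ max R (A / (δ / 2)) := by
      by_contra h4
      rw [not_le, max_lt_iff, div_lt_iff₀ (half_pos hδ)] at h4
      have := hK _ _ ⟨by linarith, (D.inv.iff w z n).2 hz.2.1, mt (hI.iff w z n).1 hz.2.2⟩ h4.1
      rw [norm_mul] at this
      nlinarith [norm_nonneg (z + conj (gi n))]
    rw [show w - conj z = (w + gi n) - conj (z + conj (gi n)) by rw [map_add, conj_conj]; ring]
    refine (norm_sub_le _ _).trans ?_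
    rw [norm_conj]
    linarith
  have h5 := norm_sub_norm_le (conj z) w
  rw [norm_conj, norm_sub_rev] at h5
  exact mem_closedBall_zero_iff.2 (by linarith)

/-- Degree zero. -/
lemma zero_deg (D : Data F c N C) (hB : An B) (hI : Q.Inv B) (hend : endSet F N ⊆ B)
    (hK : ∀ ε : ℝ, 0 < ε → ∃ R : ℝ, ∀ w z, Yp F B z w → R < ‖z‖ → ‖w * z‖ ≤ ε) {w z : ℂ}
    (hw : w ∉ range gi) (h1 : (w, z) ∈ F) : (w, z) ∈ B := by
  obtain ⟨R₁, hR₁⟩ := hK 1 one_pos
  obtain ⟨d, S, E, hE, hS, h⟩ := p_FIB (p_LOC p_ARG p_PAR) p_HANK F B univ _ D.hyp hB isOpen_univ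
    isClosed_gi.isOpen_compl conn_gi (fun s hs => line' D.swap hs)
    fun w₀ hw₀ => locb D hI hend hR₁ hw₀
  have hd : (0 : ℂ) = d / π := by
    refine main_leg p_LEG D.inv hI hE hS (fun s hs => ⟨(h s hs).1, (h s hs).2.2⟩) ?_
    rw [Metric.tendsto_nhds]
    intro ε hε
    have hε' : 0 < ε / 2 / (d + 1) := by positivity
    obtain ⟨R, hR⟩ := hK _ hε'
    set η := min (1 / 2) (ε / 2 / (d + 1) / (|R| + 1)) with hη
    have hη0 : 0 < η := lt_min (by norm_num) (by positivity)
    have hΩ : ∀ w ∈ ball (0 : ℂ) η \ {0}, w ∉ range gi := fun w hw e =>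
      hw.2 (gi_small e ((mem_ball_zero_iff.1 hw.1).trans_le (min_le_left _ _)))
    have key := closed_of_dense (g := fun w => w * S w) (C := closedBall 0 (ε / 2))
      (isOpen_ball.sdiff isClosed_singleton) hE
      (continuousOn_id.mul (hS.continuousOn.mono hΩ)) isClosed_closedBall (fun w hw hwE => by
        have hw1 : ‖w‖ < η := mem_ball_zero_iff.1 hw.1
        obtain ⟨r1, r2, r3, r4⟩ := h w (hΩ w hw)
        rw [mem_closedBall_zero_iff, r4 (r3 hwE), finsum_mem_eq_finite_toFinset_sum _ r1,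
          Finset.mul_sum]
        refine (norm_sum_le _ _).trans
          ((Finset.sum_le_card_nsmul _ _ (ε / 2 / (d + 1)) fun t ht => ?_).trans ?_)
        · by_cases k : R < ‖t‖
          · exact hR w t ⟨hw1.trans_le (min_le_left _ _), (r1.mem_toFinset.1 ht).2⟩ k
          · have a := hw1.trans_le (min_le_right _ _)
            rw [lt_div_iff₀ (by positivity)] at a
            rw [norm_mul]
            nlinarith [norm_nonneg w, le_abs_self R]
        · rw [nsmul_eq_mul, ← ncard_eq_toFinset_card _ r1, r3 hwE, ← mul_div_assoc,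
            div_le_iff₀ (by positivity)]
          nlinarith)
    filter_upwards [mem_nhdsWithin_of_mem_nhds (ball_mem_nhds 0 hη0), self_mem_nhdsWithin]
      with w h1 h2
    exact (mem_closedBall.1 (key w ⟨h1, h2⟩)).trans_lt (by linarith)
  have hd0 : d = 0 := by
    rw [eq_comm, div_eq_zero_iff] at hd
    exact_mod_cast hd.resolve_right (ofReal_ne_zero.2 Real.pi_ne_zero)
  by_contra hq'
  obtain ⟨h5, h6, -⟩ := h w hw
  rw [hd0, Nat.le_zero, ncard_eq_zero h5] at h6
  exact (h6 ▸ (show z ∈ fib F B univ w from ⟨trivial, h1, hq'⟩) : z ∈ (∅ : Set ℂ))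

/-- The coefficients are fixed linear combinations of values. -/
lemma coef_val (d j : ℕ) (hj : j < d) : ∃ u : Fin d → ℂ, ∀ x : ℕ → ℂ,
    x j = ∑ i : Fin d, u i * ∑ m ∈ Finset.range d, x m * (i : ℂ) ^ m := by
  set V : Matrix (Fin d) (Fin d) ℂ := Matrix.vandermonde fun i : Fin d => ((i : ℕ) : ℂ) with hV
  have v : IsUnit V.det := (Matrix.det_vandermonde_ne_zero_iff.2
    (Nat.cast_injective.comp Fin.val_injective)).isUnit
  refine ⟨fun i => V⁻¹ ⟨j, hj⟩ i, fun x => ?_⟩
  have := congrFun (Matrix.mulVec_mulVec (fun m : Fin d => x m) V⁻¹ V) ⟨j, hj⟩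
  rw [Matrix.nonsing_inv_mul _ v, Matrix.one_mulVec] at this
  refine this.symm.trans ?_
  simp only [Matrix.mulVec, dotProduct, Finset.sum_range, hV, Matrix.vandermonde_apply, mul_comm]

lemma prod_bd (Z : Finset ℂ) (u z : ℂ) {A : ℝ} (hA : 1 ≤ A) (hu : ‖u‖ ≤ 1)
    (h1 : ∀ t ∈ Z, ‖u * t‖ ≤ A) (h2 : ∀ t ∈ Z, ∀ t' ∈ Z, A < ‖t‖ → A < ‖t'‖ → t = t') :
    ‖u * ∏ t ∈ Z, (z - t)‖ ≤ (‖z‖ + A) ^ Z.card := by
  classical
  have a : ∀ Z' : Finset ℂ, (∀ t ∈ Z', ‖t‖ ≤ A) → ‖∏ t ∈ Z', (z - t)‖ ≤ (‖z‖ + A) ^ Z'.card :=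
    fun Z' h => by
      rw [norm_prod, ← Finset.prod_const]
      exact Finset.prod_le_prod (fun _ _ => norm_nonneg _) fun t ht =>
        (norm_sub_le _ _).trans (by linarith [h t ht])
  by_cases k : ∃ t ∈ Z, A < ‖t‖
  · obtain ⟨t, ht, k⟩ := k
    rw [← Finset.mul_prod_erase _ _ ht, ← mul_assoc, norm_mul, ← Finset.card_erase_add_one ht,
      pow_succ']
    refine mul_le_mul ?_ (a _ fun t' ht' => not_lt.1 fun e => (Finset.mem_erase.1 ht').1
      (h2 _ (Finset.mem_erase.1 ht').2 _ ht e k)) (norm_nonneg _) (by positivity)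
    rw [mul_sub]
    refine (norm_sub_le _ _).trans (add_le_add ?_ (h1 t ht))
    rw [norm_mul]
    exact mul_le_of_le_one_left (norm_nonneg _) hu
  · push Not at k
    rw [norm_mul]
    exact (mul_le_of_le_one_left (norm_nonneg _) hu).trans (a Z k)

lemma fib_shift (hF : Q.Inv F) (hI : Q.Inv B) (x : ℂ) (n : Fin 2 → ℤ) :
    fib F B univ (x + gi n) = (fun t => t + conj (gi n)) '' fib F B univ x := by
  ext t
  obtain ⟨t, rfl⟩ : ∃ t', t = t' + conj (gi n) := ⟨t - conj (gi n), by ring⟩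
  rw [(add_left_injective _).mem_set_image]
  simp only [fib, mem_ofPred_eq, mem_univ, true_and, hF.iff, hI.iff]

/-- The fibre polynomial is the equation of a Calogero-Moser curve. -/
lemma theta (hS : S_SIG) (hC : S_CLS) (hP : S_FIBP) (D : Data F c N C) (hB : An B)
    (hI : Q.Inv B) (hend : endSet F N ⊆ B) {A : ℝ} (hA : 1 ≤ A)
    (hK : ∀ w z, Yp F B z w → A < ‖z‖ → ‖w * z‖ ≤ A)
    (hU : ∀ᶠ w in 𝓝[≠] (0 : ℂ), ∀ z z', Yp F B z w → Yp F B z' w → A < ‖z‖ → A < ‖z'‖ → z = z') :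
    ∃ (H : Polynomial ℂ) (E : Set ℂ), H.Monic ∧ E.Countable ∧
      ∀ w ∉ E, {z | (w, z) ∈ Zs H}.ncard = H.natDegree ∧
        ∀ z, (w, z) ∈ Zs H ↔ (w, z) ∈ F ∧ (w, z) ∉ B := by
  obtain ⟨d, b, E, hE, hb, h⟩ := hP F B univ _ D.hyp hB isOpen_univ isClosed_gi.isOpen_compl
    conn_gi (fun s hs => line' D.swap hs) fun w₀ hw₀ => locb D hI hend hK hw₀
  set P : ℂ → ℂ → ℂ := fun w z => z ^ d + ∑ j ∈ Finset.range d, b j w * z ^ j with hP
  have cP : ∀ z, ContinuousOn (fun w => P w z) (range gi)ᶜ := fun z => continuousOn_const.add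
    (continuousOn_finsetSum _ fun j _ => (hb j).continuousOn.mul continuousOn_const)
  have per : ∀ n z, ∀ w ∈ (range gi)ᶜ, P (w + gi n) (z + conj (gi n)) = P w z := fun n z w hw => by
    refine sub_eq_zero.1 (closed_of_dense (C := {0}) isClosed_gi.isOpen_compl hE
      (g := fun w => P (w + gi n) (z + conj (gi n)) - P w z) (((cP _).comp (by fun_prop)
        fun x hx => add_gi_notMem hx n).sub (cP z)) isClosed_singleton (fun x hx hxE => ?_) w hw)
    have e := fib_shift D.inv hI x n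
    have e1 := (h x hx).2.2.1 hxE
    rw [mem_singleton_iff, sub_eq_zero]
    refine ((h _ (add_gi_notMem hx n)).2.2.2 (by
      rw [e, ncard_image_of_injective _ (add_left_injective _), e1]) _).symm.trans
      (Eq.trans ?_ ((h x hx).2.2.2 e1 z))
    rw [e, finprod_mem_image (add_left_injective _).injOn]
    simp only [add_sub_add_right_eq_sub]
  have s0 : sigmaG 0 = 0 := (hS.2.2.2.2 0).2 ⟨0, gi_zero⟩
  have bd0 : ∀ z, (fun w => w * P w z) =O[𝓝[≠] 0] fun _ => (1 : ℝ) := fun z => by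
    obtain ⟨η, h0, hη⟩ := Metric.eventually_nhds_iff.1 ((eventually_nhdsWithin_iff.1 hU).and
      (ball_mem_nhds (0 : ℂ) (by norm_num : (0 : ℝ) < 1 / 2)))
    have hs : ∀ w ∈ ball (0 : ℂ) η \ {0}, ‖w‖ < 1 / 2 := fun w hw =>
      mem_ball_zero_iff.1 (hη hw.1).2
    have hΩ : ∀ w ∈ ball (0 : ℂ) η \ {0}, w ∉ range gi := fun w hw e =>
      hw.2 (gi_small e (hs w hw))
    have key := closed_of_dense (g := fun w => w * P w z) (C := closedBall 0 ((‖z‖ + A) ^ d))
      (isOpen_ball.sdiff isClosed_singleton) hE (continuousOn_id.mul ((cP z).mono hΩ))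
      isClosed_closedBall fun w hw hwE => by
        obtain ⟨r1, -, r3, r4⟩ := h w (hΩ w hw)
        have m : ∀ t ∈ r1.toFinset, Yp F B t w := fun t ht =>
          ⟨hs w hw, (r1.mem_toFinset.1 ht).2⟩
        have := prod_bd r1.toFinset w z hA (by linarith [hs w hw]) (fun t ht => by
          by_cases k : A < ‖t‖
          · exact hK w t (m t ht) k
          · rw [norm_mul]
            nlinarith [hs w hw, norm_nonneg w, norm_nonneg t])
          fun t ht t' ht' => (hη hw.1).1 hw.2 t t' (m t ht) (m t' ht')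
        rwa [← finprod_mem_eq_finite_toFinset_prod, r4 (r3 hwE), ← ncard_eq_toFinset_card _ r1,
          r3 hwE, ← mem_closedBall_zero_iff] at this
    refine Asymptotics.IsBigO.of_bound ((‖z‖ + A) ^ d) ?_
    filter_upwards [mem_nhdsWithin_of_mem_nhds (ball_mem_nhds 0 h0), self_mem_nhdsWithin]
      with w h1 h2
    simpa using key w ⟨h1, h2⟩
  have bd1 : ∀ n z, (fun w => sigmaG w * P w z) =O[𝓝[≠] (gi n)] fun _ => (1 : ℝ) := fun n z => by
    have t1 : Tendsto (fun w => w - gi n) (𝓝[≠] (gi n)) (𝓝[≠] 0) :=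
      tendsto_nhdsWithin_iff.2 ⟨((continuous_sub_right _).tendsto' _ _ (sub_self _)).mono_left
        nhdsWithin_le_nhds, eventually_mem_nhdsWithin.mono fun w hw => sub_ne_zero.2 hw⟩
    have a := (bd0 (z - conj (gi n))).comp_tendsto t1
    have a2 := (((hasDerivAt_iff_tendsto_slope.1 (hS.1 (gi n)).hasDerivAt).isBigO_one ℝ).mul a)
    simp only [Function.comp_def, mul_one] at a2
    refine a2.congr' ?_ .rfl
    filter_upwards [gi_punct (gi n), self_mem_nhdsWithin] with w a b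
    have := per n (z - conj (gi n)) (w - gi n) (by
      rw [sub_eq_add_neg, ← gi_neg]; exact add_gi_notMem a _)
    rw [sub_add_cancel, sub_add_cancel] at this
    rw [this, slope_def_field, (hS.2.2.2.2 _).2 ⟨n, rfl⟩, sub_zero, ← mul_assoc,
      div_mul_cancel₀ _ (sub_ne_zero.2 b)]
  have ext : ∀ j, ∃ a : ℂ → ℂ, Differentiable ℂ a ∧
      (j < d → ∀ w ∉ range gi, a w = sigmaG w * b j w) := fun j => by
    by_cases hj : j < d
    swap
    · exact ⟨0, differentiable_const _, fun e => absurd e hj⟩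
    have dd : DifferentiableOn ℂ (fun w => sigmaG w * b j w) (range gi)ᶜ :=
      hS.1.differentiableOn.mul (hb j)
    obtain ⟨a, a1, a2⟩ := fib_extend (g := fun w => sigmaG w * b j w) isOpen_univ
      (fun x _ => gi_punct x) (dd.mono fun x hx => hx.2) fun t _ => by
        by_cases e : t ∈ range gi
        swap
        · exact ⟨_, ((dd.continuousOn.continuousAt (isClosed_gi.isOpen_compl.mem_nhds e)).norm.eventually_lt_const
            (lt_add_one _)).mono fun _ => le_of_lt⟩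
        obtain ⟨n, rfl⟩ := e
        obtain ⟨u, hu⟩ := coef_val d j hj
        have : (fun w => sigmaG w * b j w) =O[𝓝[≠] (gi n)] fun _ => (1 : ℝ) := by
          have k := Asymptotics.IsBigO.sum (s := Finset.univ) fun (i : Fin d) _ =>
            ((bd1 n i).sub ((((hS.1.continuous.tendsto (gi n)).mono_left
              nhdsWithin_le_nhds).mul_const ((i : ℂ) ^ d)).isBigO_one ℝ)).const_mul_left (u i)
          refine k.congr_left fun w => ?_
          rw [hu fun m => b m w, Finset.mul_sum, Finset.sum_apply]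
          exact Finset.sum_congr rfl fun i _ => by simp only [hP]; ring
        obtain ⟨M, hM⟩ := this.bound
        refine ⟨max M ‖sigmaG (gi n) * b j (gi n)‖, ?_⟩
        filter_upwards [eventually_nhdsWithin_iff.1 hM] with w a
        by_cases e : w = gi n
        · exact e ▸ le_max_right _ _
        · exact le_max_of_le_left (by simpa using a e)
    exact ⟨a, differentiableOn_univ.1 a1, fun _ => a2⟩
  choose a a1 a2 using ext
  set Θ : ℂ → ℂ → ℂ := fun w z => sigmaG w * z ^ d + ∑ j ∈ Finset.range d, a j w * z ^ j with hΘ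
  have eΘ : ∀ w ∉ range gi, ∀ z, Θ w z = sigmaG w * P w z := fun w hw z => by
    simp only [hΘ, hP, mul_add, Finset.mul_sum]
    exact congrArg _ (Finset.sum_congr rfl fun j hj => by
      rw [a2 j (Finset.mem_range.1 hj) w hw, mul_assoc])
  have cΘ : ∀ z, Continuous fun w => Θ w z := fun z => (hS.1.continuous.mul continuous_const).add
    (continuous_finsetSum _ fun j _ => (a1 j).continuous.mul continuous_const)
  have law : ∀ n (κ : ℂ → ℂ), Continuous κ → (∀ w, sigmaG (w + gi n) = κ w * sigmaG w) →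
      ∀ w z, Θ (w + gi n) (z + conj (gi n)) = κ w * Θ w z := fun n κ k1 k2 w z =>
    sub_eq_zero.1 (closed_of_dense (C := {0}) isOpen_univ (countable_range gi)
      (g := fun w => Θ (w + gi n) (z + conj (gi n)) - κ w * Θ w z)
      (((cΘ _).comp (by fun_prop)).sub (k1.mul (cΘ z))).continuousOn isClosed_singleton
      (fun x _ hx => by
        rw [mem_singleton_iff, eΘ _ (add_gi_notMem hx n), eΘ x hx, per n z x hx, k2]
        ring) w trivial)
  obtain ⟨H, m1, m2, m3⟩ := hC d a a1 ⟨fun w z => by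
      simpa [gi] using law ![1, 0] (fun w => -cexp (π * (w + 1 / 2))) (by fun_prop)
        (by simpa [gi] using hS.2.1) w z,
    fun w z => by
      simpa [gi, sub_eq_add_neg] using law ![0, 1] (fun w => -cexp (-(π * I) * (w + I / 2)))
        (by fun_prop) (by simpa [gi] using hS.2.2.1) w z⟩
  refine ⟨H, E ∪ range gi, m1, hE.union (countable_range gi), fun w hw => ?_⟩
  have hw2 : w ∉ range gi := fun e => hw (Or.inr e)
  obtain ⟨r1, -, r3, r4⟩ := h w hw2
  suffices k : ∀ z, (w, z) ∈ Zs H ↔ (w, z) ∈ F ∧ (w, z) ∉ B from ⟨by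
    rw [m2, ← r3 fun e => hw (Or.inl e)]
    exact congrArg _ (Set.ext fun z => (k z).trans (and_iff_right trivial).symm), k⟩
  intro z
  have e := r4 (r3 fun e => hw (Or.inl e)) z
  rw [finprod_mem_eq_finite_toFinset_prod _ r1] at e
  change cmEquation H w z = 0 ↔ _
  rw [(m3 w z).trans (eΘ w hw2 z), mul_eq_zero, hS.2.2.2.2, or_iff_right hw2]
  simp only [hP, ← e, Finset.prod_eq_zero_iff, r1.mem_toFinset, sub_eq_zero, exists_eq_right']
  exact ⟨fun k => k.2, fun k => ⟨trivial, k⟩⟩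

end Pool.Agent.P.MP_a11f68_mp.R
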